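import Pool.Agent.H255R3.STC.Semi
import Pool.Agent.H334R5.Lin.Conv

/-!
# The polynomial-time algorithm for semi-transitive chordal graphs
-/

set_option autoImplicit false

namespace Pool.Agent.NPC.H255STC

open Pool.Agent.H334R5.Lin Pool.Agent.H255R3.STC

/-- The graph with a list of vertices and a list of edges. -/
def graphOf (I : List ℕ × List (ℕ × ℕ)) : SimpleGraph {v : ℕ // v ∈ I.1} where
  Adj u v := u ≠ v ∧ ((u.1, v.1) ∈ I.2 ∨ (v.1, u.1) ∈ I.2)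
  symm := ⟨fun _ _ h => ⟨h.1.symm, h.2.symm⟩⟩
  loopless := ⟨fun _ h => h.1 rfl⟩

/-- Adjacency. -/
def adjB (es : List (ℕ × ℕ)) (u v : ℕ) : Bool :=
  !decide (u = v) && (decide ((u, v) ∈ es) || decide ((v, u) ∈ es))

/-- The condition on the four vertices of a diamond. -/
def diaB (es : List (ℕ × ℕ)) (q : (ℕ × ℕ) × (ℕ × ℕ)) : Bool :=
  adjB es q.1.1 q.1.2 && (adjB es q.1.1 q.2.1 && (adjB es q.1.2 q.2.1 && (adjB es q.1.1 q.2.2 &&
    (adjB es q.1.2 q.2.2 && (!decide (q.2.1 = q.2.2) && !adjB es q.2.1 q.2.2)))))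

/-- The entries of a pair. -/
def ent (u v : ℕ) : List ((ℕ × ℕ) × ℕ) :=
  [((min u v, max u v), 1), ((0, 0), bif decide (v < u) then 1 else 0)]

/-- The row of a diamond. -/
def row (q : (ℕ × ℕ) × (ℕ × ℕ)) : List ((ℕ × ℕ) × ℕ) :=
  ent q.1.1 q.2.1 ++ (ent q.1.2 q.2.1 ++ (ent q.1.1 q.2.2 ++ ent q.1.2 q.2.2))

/-- The rows of the system. -/
def rows (I : List ℕ × List (ℕ × ℕ)) : List (List ((ℕ × ℕ) × ℕ)) :=
  (((I.1 ×ˢ I.1) ×ˢ (I.1 ×ˢ I.1)).filter (fun q => diaB I.2 q)).map (fun q => row q)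

/-- Decoding of rows. -/
def feat (s : List Bool) : List ((ℕ × ℕ) × ℕ) := (unbits (List ((ℕ × ℕ) × ℕ)) s).getD []

/-- The row of the constant. -/
def one : List ((ℕ × ℕ) × ℕ) := [((0, 0), 1)]

/-- The algorithm. -/
def alg (I : List ℕ × List (ℕ × ℕ)) : Bool :=
  !ruleB 2 feat ((rows I).map (fun r => bits r)) (bits one)

theorem poly_adjB : Poly (fun t : List (ℕ × ℕ) × (ℕ × ℕ) => adjB t.1 t.2.1 t.2.2) := by
  unfold adjB
  fun_prop

theorem poly_adjB' {α : Type} [TEnc α] {e : α → List (ℕ × ℕ)} {u v : α → ℕ} (he : Poly e)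
    (hu : Poly u) (hv : Poly v) : Poly (fun a => adjB (e a) (u a) (v a)) :=
  poly_adjB.comp (Poly.pair he (Poly.pair hu hv))

theorem poly_diaB : Poly (fun t : List (ℕ × ℕ) × ((ℕ × ℕ) × (ℕ × ℕ)) => diaB t.1 t.2) := by
  have h0 : Poly (fun t : List (ℕ × ℕ) × ((ℕ × ℕ) × (ℕ × ℕ)) => t.1) := Poly.fst Poly.id
  have h1 : Poly (fun t : List (ℕ × ℕ) × ((ℕ × ℕ) × (ℕ × ℕ)) => t.2.1.1) := by fun_prop
  have h2 : Poly (fun t : List (ℕ × ℕ) × ((ℕ × ℕ) × (ℕ × ℕ)) => t.2.1.2) := by fun_prop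
  have h3 : Poly (fun t : List (ℕ × ℕ) × ((ℕ × ℕ) × (ℕ × ℕ)) => t.2.2.1) := by fun_prop
  have h4 : Poly (fun t : List (ℕ × ℕ) × ((ℕ × ℕ) × (ℕ × ℕ)) => t.2.2.2) := by fun_prop
  unfold diaB
  exact Poly.and (poly_adjB' h0 h1 h2) (Poly.and (poly_adjB' h0 h1 h3) (Poly.and
    (poly_adjB' h0 h2 h3) (Poly.and (poly_adjB' h0 h1 h4) (Poly.and (poly_adjB' h0 h2 h4)
    (Poly.and (Poly.not (Poly.decide_eq h3 h4)) (Poly.not (poly_adjB' h0 h3 h4)))))))

theorem poly_ent {α : Type} [TEnc α] {u v : α → ℕ} (hu : Poly u) (hv : Poly v) :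
    Poly (fun a => ent (u a) (v a)) := by
  unfold ent
  have h1 : Poly (fun a => ((min (u a) (v a), max (u a) (v a)), 1)) :=
    Poly.pair (Poly.pair (Poly.min hu hv) (Poly.max hu hv)) (Poly.const 1)
  have h2 : Poly (fun a => (((0, 0), bif decide (v a < u a) then 1 else 0) : (ℕ × ℕ) × ℕ)) :=
    Poly.pair (Poly.const (0, 0)) (Poly.cond (Poly.decide_lt hv hu) (Poly.const 1) (Poly.const 0))
  exact Poly.cons h1 (Poly.cons h2 (Poly.const []))

theorem poly_row : Poly row := by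
  have h1 : Poly (fun t : (ℕ × ℕ) × (ℕ × ℕ) => t.1.1) := by fun_prop
  have h2 : Poly (fun t : (ℕ × ℕ) × (ℕ × ℕ) => t.1.2) := by fun_prop
  have h3 : Poly (fun t : (ℕ × ℕ) × (ℕ × ℕ) => t.2.1) := by fun_prop
  have h4 : Poly (fun t : (ℕ × ℕ) × (ℕ × ℕ) => t.2.2) := by fun_prop
  unfold row
  exact Poly.append (poly_ent h1 h3) (Poly.append (poly_ent h2 h3) (Poly.append (poly_ent h1 h4)
    (poly_ent h2 h4)))

theorem poly_rows : Poly rows := by
  unfold rows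
  have h1 : Poly (fun I : List ℕ × List (ℕ × ℕ) => I.1) := Poly.fst Poly.id
  have h2 : Poly (fun I : List ℕ × List (ℕ × ℕ) => (I.1 ×ˢ I.1) ×ˢ (I.1 ×ˢ I.1)) :=
    R671.poly_product (R671.poly_product h1 h1) (R671.poly_product h1 h1)
  have h3 : Poly (fun I : List ℕ × List (ℕ × ℕ) =>
      ((I.1 ×ˢ I.1) ×ˢ (I.1 ×ˢ I.1)).filter (fun q => diaB I.2 q)) := by
    refine Poly.filter (p := fun (I : List ℕ × List (ℕ × ℕ)) (q : (ℕ × ℕ) × (ℕ × ℕ)) =>
      diaB I.2 q) h2 ?_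
    exact poly_diaB.comp (f := fun t : (List ℕ × List (ℕ × ℕ)) × ((ℕ × ℕ) × (ℕ × ℕ)) =>
      (t.1.2, t.2)) (by fun_prop)
  exact Poly.map (α := List ℕ × List (ℕ × ℕ)) (β := (ℕ × ℕ) × (ℕ × ℕ))
    (γ := List ((ℕ × ℕ) × ℕ)) (F := fun _ q => row q) h3 (poly_row.comp (Poly.snd Poly.id))

theorem poly_feat : Poly feat := by
  unfold feat
  exact Poly.optGetD poly_unbits (Poly.const [])

theorem feat_bits (v : List ((ℕ × ℕ) × ℕ)) : feat (bits v) = v := by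
  unfold feat
  rw [unbits_bits]
  rfl

theorem poly_alg : Poly alg := by
  unfold alg
  have h1 : Poly (fun I : List ℕ × List (ℕ × ℕ) => (rows I).map (fun r => bits r)) :=
    Poly.map (α := List ℕ × List (ℕ × ℕ)) (β := List ((ℕ × ℕ) × ℕ)) (γ := List Bool)
      (F := fun _ r => bits r) poly_rows (poly_bitsOf.comp (Poly.snd Poly.id))
  have h2 := poly_ruleB (p := 2) (by norm_num) poly_feat
  exact Poly.not (Poly.comp (g := fun t : List (List Bool) × List Bool => ruleB 2 feat t.1 t.2)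
    (f := fun I : List ℕ × List (ℕ × ℕ) => ((rows I).map (fun r => bits r), bits one)) h2
    (Poly.pair h1 (Poly.const _)))

end Pool.Agent.NPC.H255STC
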