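import Mathlib

/-!
# Simplicial vertices of chordal graphs

The lemmas `cycle_adj`, `clique_sep`, `path_of_rtg`, `exists_simplicial` are copied from
`Pool.Agent.Results.MP_24e13c_co.ChordalNERD`.
-/

set_option autoImplicit false
set_option linter.unusedSectionVars false

open Classical Finset

namespace Pool.Agent.H255R3.STC

variable {V : Type} [Fintype V]

/-- A graph is chordal when it has no induced cycle of length at least four. -/
def IsChordal {V : Type} (G : SimpleGraph V) : Prop :=
  ∀ n : ℕ, 4 ≤ n → IsEmpty (SimpleGraph.cycleGraph n ↪g G)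

variable {G : SimpleGraph V}

/-- The cycle graph adjacency in terms of values. -/
lemma cycle_adj {k : ℕ} (a b : Fin (k + 2)) : (SimpleGraph.cycleGraph (k + 2)).Adj a b ↔
    (a.val + 1 = b.val ∨ b.val + 1 = a.val ∨ (a.val = 0 ∧ b.val = k + 1) ∨
      (b.val = 0 ∧ a.val = k + 1)) := by
  rw [SimpleGraph.cycleGraph_adj']
  have ha := a.isLt
  have hb := b.isLt
  rw [Fin.sub_def, Fin.sub_def]
  simp only
  rcases Nat.lt_trichotomy a.val b.val with h | h | h
  · rw [Nat.mod_eq_of_lt (a := k + 2 - b.val + a.val) (by omega),
      Nat.mod_eq_sub_mod (a := k + 2 - a.val + b.val) (by omega),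
      Nat.mod_eq_of_lt (by omega)]
    omega
  · rw [Nat.mod_eq_sub_mod (a := k + 2 - b.val + a.val) (by omega),
      Nat.mod_eq_of_lt (a := k + 2 - b.val + a.val - (k + 2)) (by omega),
      Nat.mod_eq_sub_mod (a := k + 2 - a.val + b.val) (by omega),
      Nat.mod_eq_of_lt (by omega)]
    omega
  · rw [Nat.mod_eq_of_lt (a := k + 2 - a.val + b.val) (by omega),
      Nat.mod_eq_sub_mod (a := k + 2 - b.val + a.val) (by omega),
      Nat.mod_eq_of_lt (by omega)]
    omega

/-- A path of length `k` from `x` to `y` with interior in `H`. -/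
def PathIn (G : SimpleGraph V) (H : V → Prop) (x y : V) (k : ℕ) (q : ℕ → V) : Prop :=
  q 0 = x ∧ q k = y ∧ (∀ i < k, G.Adj (q i) (q (i + 1))) ∧ ∀ i, 0 < i → i < k → H (q i)

lemma clique_sep (hG : IsChordal G) {H : V → Prop} {v x y : V}
    (hvH : ∀ h, H h → h ≠ v ∧ ¬ G.Adj v h) (hvx : G.Adj v x) (hvy : G.Adj v y)
    (hxy : x ≠ y) (hex : ∃ k q, PathIn G H x y k q) : G.Adj x y := by
  by_contra hnadj
  obtain ⟨k, ⟨q, hq⟩, hmin⟩ : ∃ k, (∃ q, PathIn G H x y k q) ∧
      ∀ m < k, ¬ ∃ q, PathIn G H x y m q := by
    refine ⟨Nat.find hex, Nat.find_spec hex, fun m hm => Nat.find_min hex hm⟩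
  obtain ⟨hq0, hqk, hadj, hin⟩ := hq
  have hxH : ¬ H x := fun h => (hvH x h).2 hvx
  have hyH : ¬ H y := fun h => (hvH y h).2 hvy
  -- no shortcuts
  have hshort : ∀ i j, i + 1 < j → j ≤ k → ¬ G.Adj (q i) (q j) := by
    intro i j hij hjk hadj'
    apply hmin (k - (j - i - 1)) (by omega)
    refine ⟨fun m => if m ≤ i then q m else q (m + (j - i - 1)), ?_, ?_, ?_, ?_⟩
    · simp [hq0]
    · have h1 : ¬ (k - (j - i - 1) ≤ i) := by omega
      simp only [h1, if_false]
      rw [← hqk]; congr 1; omega
    · intro m hm
      by_cases h1 : m + 1 ≤ i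
      · have h2 : m ≤ i := by omega
        simp only [h1, h2, if_true]
        exact hadj m (by omega)
      · by_cases h2 : m ≤ i
        · have h3 : m = i := by omega
          subst h3
          simp only [le_refl, if_true, h1, if_false]
          have h4 : m + 1 + (j - m - 1) = j := by omega
          rw [h4]; exact hadj'
        · simp only [h1, h2, if_false]
          have h4 : m + 1 + (j - i - 1) = m + (j - i - 1) + 1 := by omega
          rw [h4]
          exact hadj _ (by omega)
    · intro m hm1 hm2
      by_cases h2 : m ≤ i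
      · simp only [h2, if_true]; exact hin m hm1 (by omega)
      · simp only [h2, if_false]; exact hin _ (by omega) (by omega)
  have hinj : ∀ i j, i < j → j ≤ k → q i ≠ q j := by
    intro i j hij hjk heq
    by_cases hjk' : j = k
    · subst hjk'
      rcases Nat.eq_zero_or_pos i with h0 | h0
      · subst h0
        rw [hq0, hqk] at heq
        exact hxy heq
      · have := hin i h0 hij
        rw [heq, hqk] at this
        exact hyH this
    · have h1 := hadj j (by omega)
      rw [← heq] at h1
      exact hshort i (j + 1) (by omega) (by omega) h1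
  have hk2 : 2 ≤ k := by
    rcases Nat.lt_or_ge k 2 with h | h
    · exfalso
      interval_cases k
      · rw [hq0] at hqk; exact hxy hqk
      · have := hadj 0 (by norm_num)
        rw [hq0] at this
        simp only [zero_add] at this
        rw [hqk] at this
        exact hnadj this
    · exact h
  have hvq : ∀ i ≤ k, (v ≠ q i) ∧ (G.Adj v (q i) ↔ (i = 0 ∨ i = k)) := by
    intro i hi
    rcases Nat.eq_zero_or_pos i with h0 | h0
    · subst h0
      rw [hq0]
      exact ⟨hvx.ne, by simp [hvx]⟩
    · by_cases hik : i = k
      · subst hik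
        rw [hqk]
        exact ⟨hvy.ne, by simp [hvy]⟩
      · have := hvH _ (hin i h0 (by omega))
        exact ⟨this.1.symm, by simp [this.2]; omega⟩
  -- the embedding
  let e : Fin (k + 2) → V := fun a => if a.val = 0 then v else q (a.val - 1)
  have he_inj : Function.Injective e := by
    intro a b hab
    by_contra hne
    have hne' : a.val ≠ b.val := fun h => hne (Fin.ext h)
    have ha := a.isLt
    have hb := b.isLt
    simp only [e] at hab
    split_ifs at hab with h1 h2 h2
    · omega
    · exact (hvq (b.val - 1) (by omega)).1 hab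
    · exact (hvq (a.val - 1) (by omega)).1 hab.symm
    · rcases Nat.lt_trichotomy a.val b.val with h | h | h
      · exact hinj _ _ (by omega) (by omega) hab
      · omega
      · exact hinj _ _ (by omega) (by omega) hab.symm
  have hqq : ∀ i j, i ≤ k → j ≤ k → (G.Adj (q i) (q j) ↔ (i + 1 = j ∨ j + 1 = i)) := by
    intro i j hi hj
    rcases Nat.lt_trichotomy i j with h | h | h
    · by_cases h1 : i + 1 = j
      · subst h1
        simp [hadj i (by omega)]
      · have := hshort i j (by omega) hj
        simp [this]; omega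
    · subst h
      simp
    · by_cases h1 : j + 1 = i
      · subst h1
        simp [(hadj j (by omega)).symm]
      · have := hshort j i (by omega) hi
        rw [SimpleGraph.adj_comm]
        simp [this]; omega
  have he_adj : ∀ a b, G.Adj (e a) (e b) ↔ (SimpleGraph.cycleGraph (k + 2)).Adj a b := by
    intro a b
    rw [cycle_adj]
    have ha := a.isLt
    have hb := b.isLt
    simp only [e]
    split_ifs with h1 h2 h2
    · simp; omega
    · rw [(hvq (b.val - 1) (by omega)).2]; omega
    · rw [SimpleGraph.adj_comm, (hvq (a.val - 1) (by omega)).2]; omega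
    · rw [hqq _ _ (by omega) (by omega)]; omega
  exact (hG (k + 2) (by omega)).false
    ⟨⟨e, he_inj⟩, by intro a b; exact he_adj a b⟩

lemma path_of_rtg {H : V → Prop} {a b : V}
    (h : Relation.ReflTransGen (fun a b => G.Adj a b ∧ H a ∧ H b) a b) (ha : H a) :
    ∃ (k : ℕ) (q : ℕ → V), q 0 = a ∧ q k = b ∧ (∀ i < k, G.Adj (q i) (q (i + 1))) ∧
      ∀ i ≤ k, H (q i) := by
  induction h with
  | refl => exact ⟨0, fun _ => a, rfl, rfl, by simp, fun _ _ => ha⟩
  | @tail b c _ hbc ih =>
    obtain ⟨k, q, h0, hk, hadj, hH⟩ := ih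
    refine ⟨k + 1, fun m => if m ≤ k then q m else c, ?_, ?_, ?_, ?_⟩
    · simp [h0]
    · simp
    · intro i hi
      by_cases h1 : i = k
      · subst h1
        simp only [le_refl, if_true, Nat.not_succ_le_self, if_false]
        rw [hk]; exact hbc.1
      · have h2 : i ≤ k := by omega
        have h3 : i + 1 ≤ k := by omega
        simp only [h2, h3, if_true]
        exact hadj i (by omega)
    · intro i hi
      by_cases h2 : i ≤ k
      · simp only [h2, if_true]; exact hH i h2
      · simp only [h2, if_false]; exact hbc.2.2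

lemma exists_simplicial (hG : IsChordal G) : ∀ (n : ℕ) (s : Finset V), s.card ≤ n →
    ∀ v ∈ s, ∀ w ∈ s, w ≠ v → ¬ G.Adj v w →
    ∃ z ∈ s, z ≠ v ∧ ¬ G.Adj v z ∧
      (∀ a ∈ s, ∀ b ∈ s, G.Adj z a → G.Adj z b → a ≠ b → G.Adj a b) := by
  intro n
  induction n with
  | zero =>
    intro s hs v hv
    rw [Nat.le_zero, Finset.card_eq_zero] at hs
    subst hs
    simp at hv
  | succ n ih =>
    intro s hs v hv w hw hwv hvw
    let R : V → V → Prop := fun a b => G.Adj a b ∧ b ∈ s ∧ b ≠ v ∧ ¬ G.Adj v b
    let H : V → Prop := fun h => Relation.ReflTransGen R w h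
    have hHw : H w := Relation.ReflTransGen.refl
    have hHp : ∀ h, H h → h ∈ s ∧ h ≠ v ∧ ¬ G.Adj v h := by
      intro h hh
      rcases Relation.ReflTransGen.cases_tail hh with h1 | ⟨c, _, hc⟩
      · rw [h1]; exact ⟨hw, hwv, hvw⟩
      · exact hc.2
    have hHcl : ∀ h a, H h → G.Adj h a → a ∈ s → a ≠ v → ¬ G.Adj v a → H a := by
      intro h a hh h1 h2 h3 h4
      exact Relation.ReflTransGen.tail hh ⟨h1, h2, h3, h4⟩
    have hHR : ∀ h, H h → Relation.ReflTransGen (fun a b => G.Adj a b ∧ H a ∧ H b) w h := by
      intro h hh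
      induction hh with
      | refl => exact Relation.ReflTransGen.refl
      | @tail b c hb hbc ih2 =>
        exact Relation.ReflTransGen.tail ih2 ⟨hbc.1, hb, Relation.ReflTransGen.tail hb hbc⟩
    have hsymm : ∀ a b, Relation.ReflTransGen (fun a b => G.Adj a b ∧ H a ∧ H b) a b →
        Relation.ReflTransGen (fun a b => G.Adj a b ∧ H a ∧ H b) b a := by
      intro a b h
      induction h with
      | refl => exact Relation.ReflTransGen.refl
      | @tail b c _ hbc ih2 =>
        exact Relation.ReflTransGen.head ⟨hbc.1.symm, hbc.2.2, hbc.2.1⟩ ih2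
    let T : Finset V := s.filter (fun x => H x ∨ (G.Adj v x ∧ ∃ h, H h ∧ G.Adj x h))
    have hTs : T ⊆ s := Finset.filter_subset _ _
    have hvT : v ∉ T := by
      intro h
      rw [Finset.mem_filter] at h
      rcases h.2 with h1 | h1
      · exact (hHp v h1).2.1 rfl
      · exact G.loopless.irrefl v h1.1
    have hTcard : T.card ≤ n := by
      have : T.card < s.card := Finset.card_lt_card ⟨hTs, fun h => hvT (h hv)⟩
      omega
    have hclique : ∀ x y, G.Adj v x → (∃ h, H h ∧ G.Adj x h) → G.Adj v y →
        (∃ h, H h ∧ G.Adj y h) → x ≠ y → G.Adj x y := by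
      rintro x y hvx ⟨h1, hh1, hx1⟩ hvy ⟨h2, hh2, hy2⟩ hxy
      apply clique_sep hG (H := H) (fun h hh => (hHp h hh).2) hvx hvy hxy
      have hr : Relation.ReflTransGen (fun a b => G.Adj a b ∧ H a ∧ H b) h1 h2 :=
        (hsymm _ _ (hHR h1 hh1)).trans (hHR h2 hh2)
      obtain ⟨k, q, h0, hk, hadj, hH⟩ := path_of_rtg hr hh1
      refine ⟨k + 2, fun m => if m = 0 then x else if m ≤ k + 1 then q (m - 1) else y,
        ?_, ?_, ?_, ?_⟩
      · simp
      · simp
      · intro i hi
        rcases Nat.eq_zero_or_pos i with hi0 | hi0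
        · subst hi0
          simp [h0, hx1]
        · have hi1 : i ≠ 0 := by omega
          have hi2 : i + 1 ≠ 0 := by omega
          have hi3 : i ≤ k + 1 := by omega
          simp only [hi1, hi2, hi3, if_false, if_true]
          by_cases hi4 : i + 1 ≤ k + 1
          · simp only [hi4, if_true]
            have := hadj (i - 1) (by omega)
            rw [show i - 1 + 1 = i + 1 - 1 by omega] at this
            exact this
          · simp only [hi4, if_false]
            have : i - 1 = k := by omega
            rw [this, hk]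
            exact hy2.symm
      · intro i hi hi'
        have hi1 : i ≠ 0 := by omega
        have hi3 : i ≤ k + 1 := by omega
        simp only [hi1, hi3, if_false, if_true]
        exact hH _ (by omega)
    -- find `z` in `H`, simplicial in `T`
    obtain ⟨z, hzH, hzsimp⟩ : ∃ z, H z ∧
        (∀ a ∈ T, ∀ b ∈ T, G.Adj z a → G.Adj z b → a ≠ b → G.Adj a b) := by
      by_cases h1 : ∃ x ∈ T, ¬ H x ∧ ∃ y ∈ T, y ≠ x ∧ ¬ G.Adj x y
      · obtain ⟨x, hxT, hxH, y, hyT, hyx, hxy⟩ := h1
        obtain ⟨z, hzT, hzx, hxz, hz⟩ := ih T hTcard x hxT y hyT hyx hxy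
        refine ⟨z, ?_, hz⟩
        by_contra hzH
        have hxS := (Finset.mem_filter.mp hxT).2.resolve_left hxH
        have hzS := (Finset.mem_filter.mp hzT).2.resolve_left hzH
        exact hxz (hclique x z hxS.1 hxS.2 hzS.1 hzS.2 hzx.symm)
      · by_cases h2 : ∃ x ∈ T, ∃ y ∈ T, y ≠ x ∧ ¬ G.Adj x y
        · obtain ⟨x, hxT, y, hyT, hyx, hxy⟩ := h2
          obtain ⟨z, hzT, hzx, hxz, hz⟩ := ih T hTcard x hxT y hyT hyx hxy
          refine ⟨z, ?_, hz⟩
          by_contra hzH
          exact h1 ⟨z, hzT, hzH, x, hxT, hzx.symm, fun h => hxz h.symm⟩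
        · refine ⟨w, hHw, ?_⟩
          intro a ha b hb _ _ hab
          by_contra hnab
          exact h2 ⟨a, ha, b, hb, hab.symm, hnab⟩
    have hzp := hHp z hzH
    refine ⟨z, hzp.1, hzp.2.1, hzp.2.2, ?_⟩
    have hmemT : ∀ a ∈ s, G.Adj z a → a ∈ T := by
      intro a ha hza
      rw [Finset.mem_filter]
      refine ⟨ha, ?_⟩
      by_cases hva : G.Adj v a
      · right
        exact ⟨hva, z, hzH, hza.symm⟩
      · left
        apply hHcl z a hzH hza ha _ hva
        rintro rfl
        exact hzp.2.2 hza.symm
    intro a ha b hb hza hzb hab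
    exact hzsimp a (hmemT a ha hza) b (hmemT b hb hzb) hza hzb hab


/-- The block structure of a chordal graph. -/
structure Blocks (G : SimpleGraph V) (s : Finset V) (blk : V → ℕ) : Prop where
  same_adj : ∀ a ∈ s, ∀ b ∈ s, blk a = blk b → a ≠ b → G.Adj a b
  same_nbr : ∀ a ∈ s, ∀ b ∈ s, blk a = blk b → ∀ x ∈ s, blk x < blk a → G.Adj x a → G.Adj x b
  clique : ∀ a ∈ s, ∀ x ∈ s, ∀ y ∈ s, blk x < blk a → blk y < blk a → G.Adj x a → G.Adj y a →
    x ≠ y → G.Adj x y
  wit : ∀ a ∈ s, ∀ z ∈ s, blk z < blk a → ∃ w ∈ s, blk w < blk a ∧ ¬ G.Adj w a ∧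
    ∀ x ∈ s, blk x < blk a → G.Adj x a → G.Adj x w

/-- Bags are cliques. -/
lemma Blocks.bag_clique {s : Finset V} {blk : V → ℕ} (h : Blocks G s blk) {a x y : V}
    (ha : a ∈ s) (hx : x ∈ s) (hy : y ∈ s) (hxa : x = a ∨ (G.Adj x a ∧ blk x ≤ blk a))
    (hya : y = a ∨ (G.Adj y a ∧ blk y ≤ blk a)) (hxy : x ≠ y) : G.Adj x y := by
  rcases hxa with rfl | ⟨hxa, hxl⟩
  · rcases hya with rfl | ⟨hya, hyl⟩
    · exact absurd rfl hxy
    · exact hya.symm
  · rcases hya with rfl | ⟨hya, hyl⟩
    · exact hxa
    · rcases Nat.lt_or_eq_of_le hxl with h1 | h1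
      · rcases Nat.lt_or_eq_of_le hyl with h2 | h2
        · exact h.clique a ha x hx y hy h1 h2 hxa hya hxy
        · exact h.same_nbr a ha y hy h2.symm x hx h1 hxa
      · rcases Nat.lt_or_eq_of_le hyl with h2 | h2
        · exact (h.same_nbr a ha x hx h1.symm y hy h2 hya).symm
        · exact h.same_adj x hx y hy (h1.trans h2.symm) hxy

lemma exists_blocks_aux (hG : IsChordal G) : ∀ (n : ℕ) (s : Finset V), s.card = n →
    ∃ blk : V → ℕ, Blocks G s blk := by
  intro n
  induction n with
  | zero =>
    intro s hs
    rw [Finset.card_eq_zero] at hs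
    subst hs
    exact ⟨fun _ => 0, by constructor <;> simp⟩
  | succ n ih =>
    intro s hs
    obtain ⟨v, hvs, hv⟩ : ∃ v ∈ s,
        (∀ a ∈ s, ∀ b ∈ s, G.Adj v a → G.Adj v b → a ≠ b → G.Adj a b) := by
      by_cases h : ∃ x ∈ s, ∃ y ∈ s, y ≠ x ∧ ¬ G.Adj x y
      · obtain ⟨x, hx, y, hy, hyx, hxy⟩ := h
        obtain ⟨z, hz1, _, _, hz2⟩ := exists_simplicial hG s.card s le_rfl x hx y hy hyx hxy
        exact ⟨z, hz1, hz2⟩
      · have hpos : 0 < s.card := by omega
        obtain ⟨z, hz⟩ := Finset.card_pos.mp hpos
        refine ⟨z, hz, fun a ha b hb _ _ hab => ?_⟩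
        by_contra hnab
        exact h ⟨a, ha, b, hb, hab.symm, hnab⟩
    obtain ⟨blk, hb⟩ := ih (s.erase v) (by rw [Finset.card_erase_of_mem hvs, hs]; rfl)
    have hmem : ∀ x, x ∈ s → x = v ∨ x ∈ s.erase v := by
      intro x hx
      by_cases h : x = v
      · exact Or.inl h
      · exact Or.inr (Finset.mem_erase.mpr ⟨h, hx⟩)
    have hmem' : ∀ x, x ∈ s.erase v → x ∈ s ∧ x ≠ v := fun x hx =>
      ⟨(Finset.mem_erase.mp hx).2, (Finset.mem_erase.mp hx).1⟩
    by_cases hA : ∃ a ∈ s.erase v, ∀ u ∈ s.erase v,
        (G.Adj u v ↔ (u = a ∨ (G.Adj u a ∧ blk u ≤ blk a)))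
    · obtain ⟨a, ha, hav⟩ := hA
      have hne : ∀ x ∈ s.erase v, x ≠ v := fun x hx => (hmem' x hx).2
      refine ⟨Function.update blk v (blk a), ?_⟩
      have hup : ∀ x ∈ s.erase v, Function.update blk v (blk a) x = blk x := fun x hx =>
        Function.update_of_ne (hne x hx) _ _
      have huv : Function.update blk v (blk a) v = blk a := Function.update_self _ _ _
      have hav' : G.Adj a v := (hav a ha).2 (Or.inl rfl)
      have hnotadj : ∀ b ∈ s.erase v, blk a < blk b → ¬ G.Adj b v := by
        intro b hbs hlt hadj
        rcases (hav b hbs).1 hadj with h | h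
        · subst h; omega
        · omega
      have hlow : ∀ x ∈ s.erase v, blk x < blk a → (G.Adj x v ↔ G.Adj x a) := by
        intro x hx hlt
        rw [hav x hx]
        constructor
        · rintro (h | h)
          · subst h; omega
          · exact h.1
        · intro h
          exact Or.inr ⟨h, hlt.le⟩
      constructor
      · intro p hp q hq hpq hne'
        rcases hmem p hp with rfl | hp' <;> rcases hmem q hq with rfl | hq'
        · exact absurd rfl hne'
        · rw [huv, hup q hq'] at hpq
          rw [G.adj_comm, hav q hq']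
          by_cases h : q = a
          · exact Or.inl h
          · exact Or.inr ⟨hb.same_adj q hq' a ha hpq.symm h, hpq.symm.le⟩
        · rw [huv, hup p hp'] at hpq
          rw [hav p hp']
          by_cases h : p = a
          · exact Or.inl h
          · exact Or.inr ⟨hb.same_adj p hp' a ha hpq h, hpq.le⟩
        · rw [hup p hp', hup q hq'] at hpq
          exact hb.same_adj p hp' q hq' hpq hne'
      · intro p hp q hq hpq x hx hlt hadj
        rcases hmem x hx with rfl | hx'
        · rcases hmem p hp with rfl | hp'
          · exact absurd hadj (G.loopless.irrefl _)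
          · rw [huv, hup p hp'] at hlt
            exact absurd hadj.symm (hnotadj p hp' hlt)
        · rcases hmem p hp with rfl | hp' <;> rcases hmem q hq with rfl | hq'
          · exact hadj
          · rw [huv, hup q hq'] at hpq
            rw [huv, hup x hx'] at hlt
            exact hb.same_nbr a ha q hq' hpq x hx' hlt ((hlow x hx' hlt).1 hadj)
          · rw [huv, hup p hp'] at hpq
            rw [hup p hp', hup x hx', hpq] at hlt
            exact (hlow x hx' hlt).2 (hb.same_nbr p hp' a ha hpq x hx' (hpq ▸ hlt) hadj)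
          · rw [hup p hp', hup q hq'] at hpq
            rw [hup p hp', hup x hx'] at hlt
            exact hb.same_nbr p hp' q hq' hpq x hx' hlt hadj
      · intro p hp x hx y hy hlx hly hxa hya hxy
        rcases hmem p hp with rfl | hp'
        · exact hv x hx y hy hxa.symm hya.symm hxy
        · rcases hmem x hx with rfl | hx'
          · rw [huv, hup p hp'] at hlx
            exact absurd hxa.symm (hnotadj p hp' hlx)
          · rcases hmem y hy with rfl | hy'
            · rw [huv, hup p hp'] at hly
              exact absurd hya.symm (hnotadj p hp' hly)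
            · rw [hup p hp', hup x hx'] at hlx
              rw [hup p hp', hup y hy'] at hly
              exact hb.clique p hp' x hx' y hy' hlx hly hxa hya hxy
      · intro p hp z hz hlt
        have hz0 : ∃ z' ∈ s.erase v, blk z' < Function.update blk v (blk a) p := by
          rcases hmem z hz with rfl | hz'
          · rw [huv] at hlt
            exact ⟨a, ha, hlt⟩
          · rw [hup z hz'] at hlt
            exact ⟨z, hz', hlt⟩
        obtain ⟨z', hz', hlt'⟩ := hz0
        rcases hmem p hp with rfl | hp'
        · rw [huv] at hlt'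
          obtain ⟨w, hw, hwl, hwa, hwx⟩ := hb.wit a ha z' hz' hlt'
          refine ⟨w, (hmem' w hw).1, ?_, ?_, ?_⟩
          · rw [huv, hup w hw]; exact hwl
          · rw [hlow w hw hwl]; exact hwa
          · intro x hx hlx hxa
            rcases hmem x hx with rfl | hx'
            · exact absurd hxa (G.loopless.irrefl _)
            · rw [huv, hup x hx'] at hlx
              exact hwx x hx' hlx ((hlow x hx' hlx).1 hxa)
        · rw [hup p hp'] at hlt'
          obtain ⟨w, hw, hwl, hwa, hwx⟩ := hb.wit p hp' z' hz' hlt'
          refine ⟨w, (hmem' w hw).1, ?_, hwa, ?_⟩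
          · rw [hup p hp', hup w hw]; exact hwl
          · intro x hx hlx hxa
            rcases hmem x hx with rfl | hx'
            · rw [huv, hup p hp'] at hlx
              exact absurd hxa.symm (hnotadj p hp' hlx)
            · rw [hup p hp', hup x hx'] at hlx
              exact hwx x hx' hlx hxa
    · -- a new block
      obtain ⟨M, hM⟩ : ∃ M, ∀ x ∈ s.erase v, blk x < M :=
        ⟨(s.erase v).sup blk + 1, fun x hx => Nat.lt_succ_of_le (Finset.le_sup (f := blk) hx)⟩
      have hne : ∀ x ∈ s.erase v, x ≠ v := fun x hx => (hmem' x hx).2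
      refine ⟨Function.update blk v M, ?_⟩
      have hup : ∀ x ∈ s.erase v, Function.update blk v M x = blk x := fun x hx =>
        Function.update_of_ne (hne x hx) _ _
      have huv : Function.update blk v M v = M := Function.update_self _ _ _
      constructor
      · intro p hp q hq hpq hne'
        rcases hmem p hp with rfl | hp' <;> rcases hmem q hq with rfl | hq'
        · exact absurd rfl hne'
        · rw [huv, hup q hq'] at hpq
          have := hM q hq'
          omega
        · rw [huv, hup p hp'] at hpq
          have := hM p hp'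
          omega
        · rw [hup p hp', hup q hq'] at hpq
          exact hb.same_adj p hp' q hq' hpq hne'
      · intro p hp q hq hpq x hx hlt hadj
        rcases hmem x hx with rfl | hx'
        · rcases hmem p hp with rfl | hp'
          · exact absurd hadj (G.loopless.irrefl _)
          · rw [huv, hup p hp'] at hlt
            have := hM p hp'
            omega
        · rcases hmem p hp with rfl | hp' <;> rcases hmem q hq with rfl | hq'
          · exact hadj
          · rw [huv, hup q hq'] at hpq
            have := hM q hq'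
            omega
          · rw [huv, hup p hp'] at hpq
            have := hM p hp'
            omega
          · rw [hup p hp', hup q hq'] at hpq
            rw [hup p hp', hup x hx'] at hlt
            exact hb.same_nbr p hp' q hq' hpq x hx' hlt hadj
      · intro p hp x hx y hy hlx hly hxa hya hxy
        rcases hmem p hp with rfl | hp'
        · exact hv x hx y hy hxa.symm hya.symm hxy
        · rcases hmem x hx with rfl | hx'
          · rw [huv, hup p hp'] at hlx
            have := hM p hp'
            omega
          · rcases hmem y hy with rfl | hy'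
            · rw [huv, hup p hp'] at hly
              have := hM p hp'
              omega
            · rw [hup p hp', hup x hx'] at hlx
              rw [hup p hp', hup y hy'] at hly
              exact hb.clique p hp' x hx' y hy' hlx hly hxa hya hxy
      · intro p hp z hz hlt
        rcases hmem p hp with rfl | hp'
        · -- the new vertex
          have hz' : z ∈ s.erase p := by
            rcases hmem z hz with rfl | hz'
            · omega
            · exact hz'
          suffices hw : ∃ w ∈ s.erase p, ¬ G.Adj w p ∧ ∀ x ∈ s.erase p, G.Adj x p → G.Adj x w by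
            obtain ⟨w, hw, hwp, hwx⟩ := hw
            refine ⟨w, (hmem' w hw).1, ?_, hwp, ?_⟩
            · rw [huv, hup w hw]; exact hM w hw
            · intro x hx _ hxa
              rcases hmem x hx with rfl | hx'
              · exact absurd hxa (G.loopless.irrefl _)
              · exact hwx x hx' hxa
          by_cases hN : ∃ x ∈ s.erase p, G.Adj x p
          · obtain ⟨a, haF, hamax⟩ := Finset.exists_max_image
              ((s.erase p).filter (fun x => G.Adj x p)) blk
              (by obtain ⟨x, hx, hxp⟩ := hN; exact ⟨x, Finset.mem_filter.mpr ⟨hx, hxp⟩⟩)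
            obtain ⟨ha, hap⟩ := Finset.mem_filter.mp haF
            have hsub : ∀ x ∈ s.erase p, G.Adj x p → x = a ∨ (G.Adj x a ∧ blk x ≤ blk a) := by
              intro x hx hxp
              by_cases h : x = a
              · exact Or.inl h
              · exact Or.inr ⟨hv x (hmem' x hx).1 a (hmem' a ha).1 hxp.symm hap.symm h,
                  hamax x (Finset.mem_filter.mpr ⟨hx, hxp⟩)⟩
            have hex : ∃ w ∈ s.erase p, (w = a ∨ (G.Adj w a ∧ blk w ≤ blk a)) ∧ ¬ G.Adj w p := by
              by_contra hcon
              push Not at hcon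
              exact hA ⟨a, ha, fun u hu => ⟨hsub u hu, hcon u hu⟩⟩
            obtain ⟨w, hw, hwb, hwp⟩ := hex
            refine ⟨w, hw, hwp, ?_⟩
            intro x hx hxp
            exact hb.bag_clique ha hx hw (hsub x hx hxp) hwb (by rintro rfl; exact hwp hxp)
          · exact ⟨z, hz', fun h => hN ⟨z, hz', h⟩, fun x hx h => absurd ⟨x, hx, h⟩ hN⟩
        · have hz' : z ∈ s.erase v ∧ blk z < blk p := by
            rcases hmem z hz with rfl | hz'
            · rw [huv, hup p hp'] at hlt
              have := hM p hp'
              omega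
            · rw [hup p hp', hup z hz'] at hlt
              exact ⟨hz', hlt⟩
          obtain ⟨w, hw, hwl, hwa, hwx⟩ := hb.wit p hp' z hz'.1 hz'.2
          refine ⟨w, (hmem' w hw).1, ?_, hwa, ?_⟩
          · rw [hup p hp', hup w hw]; exact hwl
          · intro x hx hlx hxa
            rcases hmem x hx with rfl | hx'
            · rw [huv, hup p hp'] at hlx
              have := hM p hp'
              omega
            · rw [hup p hp', hup x hx'] at hlx
              exact hwx x hx' hlx hxa

theorem exists_blocks (hG : IsChordal G) : ∃ blk : V → ℕ, Blocks G Finset.univ blk :=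
  exists_blocks_aux hG _ Finset.univ rfl

end Pool.Agent.H255R3.STC
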