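import Pool.Agent.H255R3.STC.Good

/-!
# Existence of good linear orders
-/

set_option autoImplicit false

namespace Pool.Agent.H255R3.STC

variable {V : Type} {o : V → V → ZMod 2}

theorem exists_bound {K : Set V} (hK : K.Finite) (r : V → ℕ) : ∃ M, ∀ a ∈ K, r a < M := by
  obtain ⟨M, hM⟩ := (hK.image r).bddAbove
  exact ⟨M + 1, fun a ha => Nat.lt_succ_of_le (hM (Set.mem_image_of_mem r ha))⟩

/-- Rotating a good order. -/
theorem Good.rotate {K : Set V} (hK : K.Finite) {r : V → ℕ} (h : Good o K r) {s : V} (hs : s ∈ K) :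
    ∃ r', Good o K r' ∧ ∀ a ∈ K, a ≠ s → r' s < r' a := by
  obtain ⟨M, hM⟩ := exists_bound hK r
  have hMs := hM s hs
  refine ⟨fun x => if r x < r s then r x + M else r x, ?_, ?_⟩
  swap
  · intro a ha has
    have h1 : r a ≠ r s := fun h' => has (h.inj ha hs h')
    dsimp only
    rw [if_neg (lt_irrefl _)]
    split_ifs <;> omega
  have key : ∀ x ∈ K, ∀ y ∈ K, x ≠ y → oR (fun x => if r x < r s then r x + M else r x) x y =
      oR r x y + (if r x < r s then 1 else 0) + (if r y < r s then 1 else 0) := by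
    intro x hx y hy hxy
    have h1 : r x ≠ r y := fun h' => hxy (h.inj hx hy h')
    have h2 := hM x hx
    have h3 := hM y hy
    unfold oR
    dsimp only
    by_cases c1 : r x < r s <;> by_cases c2 : r y < r s <;> simp only [c1, c2, if_true, if_false]
    · by_cases c3 : r x < r y
      · rw [if_pos (by omega), if_pos c3]; decide
      · rw [if_neg (by omega), if_neg c3]; decide
    · rw [if_neg (by omega), if_pos (by omega)]; decide
    · rw [if_pos (by omega), if_neg (by omega)]; decide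
    · by_cases c3 : r x < r y
      · rw [if_pos (by omega)]; decide
      · rw [if_neg (by omega)]; decide
  refine ⟨?_, ?_, ?_⟩
  · intro x hx y hy hxy
    dsimp only at hxy
    have h2 := hM x hx
    have h3 := hM y hy
    apply h.inj hx hy
    split_ifs at hxy <;> omega
  · intro R hR x hx y hy a ha b hb hxR hyR haR hbR
    have h1 := h.split R hR x hx y hy a ha b hb hxR hyR haR hbR
    unfold cr at h1 ⊢
    rw [key x hx a ha (by rintro rfl; exact haR hxR), key y hy a ha (by rintro rfl; exact haR hyR),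
      key x hx b hb (by rintro rfl; exact hbR hxR), key y hy b hb (by rintro rfl; exact hbR hyR)]
    grind
  · intro X Y Z hc hXY hXZ hYZ sX sY sZ x hx y hy z hz hxX hyY hzZ
    have h1 := h.tri X Y Z hc hXY hXZ hYZ sX sY sZ x hx y hy z hz hxX hyY hzZ
    unfold fo at h1 ⊢
    rw [key x hx y hy (by rintro rfl; exact hXY _ hx ⟨hxX, hyY⟩),
      key y hy z hz (by rintro rfl; exact hYZ _ hy ⟨hyY, hzZ⟩),
      key z hz x hx (by rintro rfl; exact hXZ _ hx ⟨hxX, hzZ⟩)]
    grind

/-- Small sets. -/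
theorem exists_small [Finite V] (ho : Anti o) (K : Set V) :
    ∃ r : V → ℕ, Function.Injective r ∧ ∀ x ∈ K, ∀ y ∈ K, ∀ z ∈ K, x ≠ y → y ≠ z → x ≠ z →
      (∀ v ∈ K, v = x ∨ v = y ∨ v = z) → fo (oR r) x y z = fo o x y z := by
  obtain ⟨n, ⟨e⟩⟩ := Finite.exists_equiv_fin V
  by_cases h : ∃ x ∈ K, ∃ y ∈ K, ∃ z ∈ K, x ≠ y ∧ y ≠ z ∧ x ≠ z ∧
      (∀ v ∈ K, v = x ∨ v = y ∨ v = z) ∧ fo (oR (fun v => (e v : ℕ))) x y z ≠ fo o x y z
  swap
  · refine ⟨fun v => (e v : ℕ), fun a b hab => e.injective (Fin.ext hab), ?_⟩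
    intro x hx y hy z hz h1 h2 h3 h4
    by_contra h5
    exact h ⟨x, hx, y, hy, z, hz, h1, h2, h3, h4, h5⟩
  · obtain ⟨x0, hx0, y0, hy0, z0, hz0, n1, n2, n3, hK, hne⟩ := h
    have hlt : ∀ v, (e v : ℕ) < n := fun v => (e v).2
    have hinj : Function.Injective (fun v => n - (e v : ℕ)) := by
      intro a b hab
      dsimp only at hab
      have := hlt a
      have := hlt b
      exact e.injective (Fin.ext (by omega))
    refine ⟨fun v => n - (e v : ℕ), hinj, ?_⟩
    have hrev : ∀ x y, x ≠ y → oR (fun v => n - (e v : ℕ)) x y =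
        oR (fun v => (e v : ℕ)) x y + 1 := by
      intro x y hxy
      have h1 : (e x : ℕ) ≠ e y := fun h' => hxy (e.injective (Fin.ext h'))
      have h2 := hlt x
      have h3 := hlt y
      unfold oR
      dsimp only
      by_cases c3 : (e x : ℕ) < e y
      · rw [if_neg (by omega), if_pos c3]; decide
      · rw [if_pos (by omega), if_neg c3]; decide
    have hanti : ∀ x y, x ≠ y → oR (fun v => n - (e v : ℕ)) y x =
        oR (fun v => n - (e v : ℕ)) x y + 1 := fun x y hxy =>
      oR_anti (K := Set.univ) (fun a _ b _ hab => hinj hab) (Set.mem_univ x) (Set.mem_univ y) hxy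
    have h0 : fo (oR (fun v => n - (e v : ℕ))) x0 y0 z0 = fo o x0 y0 z0 := by
      have h1 : fo (oR (fun v => n - (e v : ℕ))) x0 y0 z0 =
          fo (oR (fun v => (e v : ℕ))) x0 y0 z0 + 1 := by
        unfold fo
        rw [hrev x0 y0 n1, hrev y0 z0 n2, hrev z0 x0 n3.symm]
        grind
      rw [h1]
      generalize fo (oR (fun v => (e v : ℕ))) x0 y0 z0 = p at hne
      generalize fo o x0 y0 z0 = q at hne
      revert p q
      decide
    have a1 := hanti x0 y0 n1
    have a2 := hanti y0 z0 n2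
    have a3 := hanti x0 z0 n3
    have b1 := ho x0 y0 n1
    have b2 := ho y0 z0 n2
    have b3 := ho x0 z0 n3
    intro x hx y hy z hz h1 h2 h3 h4
    unfold fo at h0 ⊢
    clear hrev hanti hne hinj
    rcases hK x hx with rfl | rfl | rfl <;> rcases hK y hy with rfl | rfl | rfl <;>
      rcases hK z hz with rfl | rfl | rfl <;>
      first
      | exact absurd rfl h1
      | exact absurd rfl h2
      | exact absurd rfl h3
      | grind

/-- Existence of good orders. -/
theorem exists_good_aux [Finite V] (ho : Anti o) : ∀ n : ℕ, ∀ K : Set V, K.ncard = n →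
    ∃ r, Good o K r := by
  intro n
  induction n using Nat.strong_induction_on with
  | _ n ih =>
    intro K hn
    by_cases h : ∃ T : Set V, Split o K T ∧ (∃ p ∈ K, ∃ q ∈ K, p ≠ q ∧ p ∈ T ∧ q ∈ T) ∧
        (∃ p ∈ K, ∃ q ∈ K, p ≠ q ∧ p ∉ T ∧ q ∉ T)
    · obtain ⟨T, hT, ⟨p, hp, q, hq, hpq, hpT, hqT⟩, ⟨u, hu, w, hw, huw, huT, hwT⟩⟩ := h
      have hfin : ∀ L : Set V, L.Finite := fun L => Set.toFinite L
      have e1 : (K ∩ T ∪ {u}).ncard < n := by
        rw [← hn]
        apply Set.ncard_lt_ncard _ (hfin K)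
        refine ⟨?_, ?_⟩
        · rintro x (hx | hx)
          · exact hx.1
          · rw [Set.mem_singleton_iff] at hx
            exact hx ▸ hu
        · intro hsub
          rcases hsub hw with h1 | h1
          · exact hwT h1.2
          · rw [Set.mem_singleton_iff] at h1
            exact huw h1.symm
      have e2 : (K \ T ∪ {p}).ncard < n := by
        rw [← hn]
        apply Set.ncard_lt_ncard _ (hfin K)
        refine ⟨?_, ?_⟩
        · rintro x (hx | hx)
          · exact hx.1
          · rw [Set.mem_singleton_iff] at hx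
            exact hx ▸ hp
        · intro hsub
          rcases hsub hq with h1 | h1
          · exact h1.2 hqT
          · rw [Set.mem_singleton_iff] at h1
            exact hpq h1.symm
      obtain ⟨r1, hr1⟩ := ih _ e1 _ rfl
      obtain ⟨r2', hr2'⟩ := ih _ e2 _ rfl
      obtain ⟨r2, hr2, hmin⟩ := hr2'.rotate (hfin _) (s := p) (Or.inr rfl)
      obtain ⟨N, hN⟩ := exists_bound (hfin (K \ T)) r2
      have hU : K ∩ T ∪ K \ T = K := Set.inter_union_sdiff K T
      refine ⟨glue (K \ T) u r1 r2 N, ?_⟩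
      have := good_glue (S := K ∩ T) (A := K \ T) (P := K ∩ T ∪ {u}) (c := u) (s0 := p) (N := N)
        ho (Set.subset_union_left) (Or.inr rfl) (fun h => huT h.2) (fun x hx h => h.2 hx.2)
        ⟨u, hu, huT⟩ ⟨hp, hpT⟩
        (by
          intro x hx y hy v hv hvS a ha
          rcases hv with hv | hv
          · exact absurd hv hvS
          · rw [Set.mem_singleton_iff] at hv
            subst hv
            exact hT x hx.1 y hy.1 v hu a ha.1 hx.2 hy.2 huT ha.2)
        hr1 hr2 (fun a ha => hmin a (Or.inl ha) (by rintro rfl; exact ha.2 hpT)) hN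
      rw [hU] at this
      exact this
    · obtain ⟨r, hr, hr3⟩ := exists_small ho K
      refine ⟨r, fun a _ b _ hab => hr hab, ?_, ?_⟩
      · intro R hR x hx y hy a ha b hb hxR hyR haR hbR
        by_cases hxy : x = y
        · rw [hxy, cr_self_left]
        · by_cases hab : a = b
          · rw [hab, cr_self_right]
          · exact absurd ⟨R, hR, ⟨x, hx, y, hy, hxy, hxR, hyR⟩, ⟨a, ha, b, hb, hab, haR, hbR⟩⟩ h
      · intro X Y Z hc hXY hXZ hYZ sX sY sZ x hx y hy z hz hxX hyY hzZ
        have n1 : x ≠ y := by rintro rfl; exact hXY _ hx ⟨hxX, hyY⟩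
        have n2 : y ≠ z := by rintro rfl; exact hYZ _ hy ⟨hyY, hzZ⟩
        have n3 : x ≠ z := by rintro rfl; exact hXZ _ hx ⟨hxX, hzZ⟩
        apply hr3 x hx y hy z hz n1 n2 n3
        intro v hv
        by_contra hcon
        push Not at hcon
        obtain ⟨m1, m2, m3⟩ := hcon
        apply h
        rcases hc v hv with hvX | hvY | hvZ
        · exact ⟨X, sX, ⟨v, hv, x, hx, m1, hvX, hxX⟩, ⟨y, hy, z, hz, n2,
            fun h' => hXY y hy ⟨h', hyY⟩, fun h' => hXZ z hz ⟨h', hzZ⟩⟩⟩
        · exact ⟨Y, sY, ⟨v, hv, y, hy, m2, hvY, hyY⟩, ⟨x, hx, z, hz, n3,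
            fun h' => hXY x hx ⟨hxX, h'⟩, fun h' => hYZ z hz ⟨h', hzZ⟩⟩⟩
        · exact ⟨Z, sZ, ⟨v, hv, z, hz, m3, hvZ, hzZ⟩, ⟨x, hx, y, hy, n1,
            fun h' => hXZ x hx ⟨hxX, h'⟩, fun h' => hYZ y hy ⟨hyY, h'⟩⟩⟩

theorem exists_good [Finite V] (ho : Anti o) (K : Set V) : ∃ r, Good o K r :=
  exists_good_aux ho _ K rfl

end Pool.Agent.H255R3.STC
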