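import Mathlib

/-!
# Good linear orders for tournaments

For a function `o` with values in the field with two elements that is antisymmetric
(`o y x = o x y + 1`), a split is a bipartition whose cross values form a sum `p x + q a`. We find a
linear order preserving all splits.
-/

set_option autoImplicit false

namespace Pool.Agent.H255R3.STC

variable {V : Type}

/-- The parity of the crossing of the pairs `x, y` and `a, b`. -/
def cr (o : V → V → ZMod 2) (x y a b : V) : ZMod 2 := o x a + o y a + o x b + o y b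

/-- The cyclic orientation of a triple. -/
def fo (o : V → V → ZMod 2) (x y z : V) : ZMod 2 := o x y + o y z + o z x

/-- `R` and its complement form a split of `o` on `K`. -/
def Split (o : V → V → ZMod 2) (K R : Set V) : Prop :=
  ∀ x ∈ K, ∀ y ∈ K, ∀ a ∈ K, ∀ b ∈ K, x ∈ R → y ∈ R → a ∉ R → b ∉ R → cr o x y a b = 0

/-- The tournament of a rank function. -/
def oR (r : V → ℕ) (x y : V) : ZMod 2 := if r x < r y then 1 else 0

/-- Antisymmetry. -/
def Anti (o : V → V → ZMod 2) : Prop := ∀ x y, x ≠ y → o y x = o x y + 1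

/-- `r` is a linear order of `K` preserving the splits of `o` and the orientation of the
tripartitions. -/
structure Good (o : V → V → ZMod 2) (K : Set V) (r : V → ℕ) : Prop where
  inj : Set.InjOn r K
  split : ∀ R : Set V, Split o K R → Split (oR r) K R
  tri : ∀ X Y Z : Set V, (∀ x ∈ K, x ∈ X ∨ x ∈ Y ∨ x ∈ Z) → (∀ x ∈ K, ¬ (x ∈ X ∧ x ∈ Y)) →
    (∀ x ∈ K, ¬ (x ∈ X ∧ x ∈ Z)) → (∀ x ∈ K, ¬ (x ∈ Y ∧ x ∈ Z)) →
    Split o K X → Split o K Y → Split o K Z →
    ∀ x ∈ K, ∀ y ∈ K, ∀ z ∈ K, x ∈ X → y ∈ Y → z ∈ Z → fo (oR r) x y z = fo o x y z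

theorem cr_add (o : V → V → ZMod 2) (x y a b c : V) : cr o x y a c = cr o x y a b + cr o x y b c := by
  unfold cr
  grind

theorem cr_self_left (o : V → V → ZMod 2) (x a b : V) : cr o x x a b = 0 := by
  unfold cr
  grind

theorem cr_self_right (o : V → V → ZMod 2) (x y a : V) : cr o x y a a = 0 := by
  unfold cr
  grind

theorem cr_swap_right (o : V → V → ZMod 2) (x y a b : V) : cr o x y a b = cr o x y b a := by
  unfold cr
  grind

theorem cr_symm {o : V → V → ZMod 2} (ho : Anti o) {x y a b : V} (h1 : x ≠ a) (h2 : x ≠ b)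
    (h3 : y ≠ a) (h4 : y ≠ b) : cr o x y a b = cr o a b x y := by
  unfold cr
  have e1 := ho x a h1
  have e2 := ho x b h2
  have e3 := ho y a h3
  have e4 := ho y b h4
  grind

theorem oR_anti {r : V → ℕ} {K : Set V} (hr : Set.InjOn r K) {x y : V} (hx : x ∈ K) (hy : y ∈ K)
    (hxy : x ≠ y) : oR r y x = oR r x y + 1 := by
  unfold oR
  have : r x ≠ r y := fun h => hxy (hr hx hy h)
  rcases lt_or_gt_of_ne this with h | h
  · rw [if_pos h, if_neg (by omega)]
    decide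
  · rw [if_pos h, if_neg (by omega)]
    decide

theorem Split.compl {o : V → V → ZMod 2} (ho : Anti o) {K R : Set V} (h : Split o K R) :
    Split o K Rᶜ := by
  intro x hx y hy a ha b hb hxR hyR haR hbR
  rw [Set.mem_compl_iff] at hxR hyR
  rw [Set.mem_compl_iff, not_not] at haR hbR
  rw [cr_symm ho (by rintro rfl; exact hxR haR) (by rintro rfl; exact hxR hbR)
    (by rintro rfl; exact hyR haR) (by rintro rfl; exact hyR hbR)]
  exact h a ha b hb x hx y hy haR hbR hxR hyR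

section Glue

variable {o : V → V → ZMod 2} {P S A : Set V} {c s0 : V} {r1 r2 : V → ℕ} {N : ℕ}

open Classical in
/-- The glued order. -/
noncomputable def glue (A : Set V) (c : V) (r1 r2 : V → ℕ) (N : ℕ) (v : V) : ℕ :=
  if v ∈ A then N * r1 c + r2 v else N * r1 v

theorem glue_A {v : V} (h : v ∈ A) : glue A c r1 r2 N v = N * r1 c + r2 v := if_pos h

theorem glue_nA {v : V} (h : v ∉ A) : glue A c r1 r2 N v = N * r1 v := if_neg h

theorem glue_lt_AA {a b : V} (ha : a ∈ A) (hb : b ∈ A) :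
    oR (glue A c r1 r2 N) a b = oR r2 a b := by
  unfold oR
  rw [glue_A ha, glue_A hb]
  simp

theorem glue_lt_SS {x y : V} (hN : 0 < N) (hx : x ∉ A) (hy : y ∉ A) :
    oR (glue A c r1 r2 N) x y = oR r1 x y := by
  unfold oR
  rw [glue_nA hx, glue_nA hy]
  simp [hN]

theorem mul_lt_aux {N p q t : ℕ} (ht : t < N) (hpq : p ≠ q) : N * p < N * q + t ↔ p < q := by
  constructor
  · intro h
    by_contra hcon
    have h1 : q + 1 ≤ p := by omega
    have h2 : N * (q + 1) ≤ N * p := Nat.mul_le_mul_left N h1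
    rw [Nat.mul_add, Nat.mul_one] at h2
    omega
  · intro h
    have h1 : N * (p + 1) ≤ N * q := Nat.mul_le_mul_left N h
    rw [Nat.mul_add, Nat.mul_one] at h1
    omega

theorem glue_lt_SA {x a : V} (hN : ∀ a ∈ A, r2 a < N) (hx : x ∉ A) (ha : a ∈ A)
    (hxc : r1 x ≠ r1 c) : oR (glue A c r1 r2 N) x a = oR r1 x c := by
  unfold oR
  rw [glue_nA hx, glue_A ha]
  simp only [mul_lt_aux (hN a ha) hxc]

theorem glue_ne_SA {x a : V} (hN : ∀ a ∈ A, r2 a < N) (hx : x ∉ A) (ha : a ∈ A)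
    (hxc : r1 x ≠ r1 c) : glue A c r1 r2 N x ≠ glue A c r1 r2 N a := by
  rw [glue_nA hx, glue_A ha]
  intro h
  have h1 := mul_lt_aux (p := r1 x) (q := r1 c) (hN a ha) hxc
  have hNN : 0 < N := by have := hN a ha; omega
  rcases lt_or_gt_of_ne hxc with h2 | h2
  · have := h1.2 h2
    omega
  · have h3 : N * (r1 c + 1) ≤ N * r1 x := Nat.mul_le_mul_left N h2
    rw [Nat.mul_add, Nat.mul_one] at h3
    have := hN a ha
    omega

/-- The gluing lemma. -/
theorem good_glue (ho : Anti o) (hSP : S ⊆ P) (hcP : c ∈ P) (hcS : c ∉ S)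
    (hSA : ∀ x ∈ S, x ∉ A) (hA : A.Nonempty) (hs0 : s0 ∈ S)
    (hd : ∀ x ∈ S, ∀ y ∈ S, ∀ u ∈ P, u ∉ S → ∀ a ∈ A, cr o x y u a = 0)
    (hg1 : Good o P r1) (hg2 : Good o (A ∪ {s0}) r2) (hmin : ∀ a ∈ A, r2 s0 < r2 a)
    (hN : ∀ a ∈ A, r2 a < N) : Good o (S ∪ A) (glue A c r1 r2 N) := by
  obtain ⟨a0, ha0⟩ := hA
  have hNN : 0 < N := by have := hN a0 ha0; omega
  have hAS : ∀ a ∈ A, a ∉ S := fun a ha hs => hSA a hs ha
  have hxc : ∀ x ∈ S, r1 x ≠ r1 c := fun x hx h => hcS ((hg1.inj (hSP hx) hcP h) ▸ hx)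
  have hs0A : s0 ∉ A := hSA s0 hs0
  -- values of the glued order
  have vSS : ∀ x ∈ S, ∀ y ∈ S, oR (glue A c r1 r2 N) x y = oR r1 x y := fun x hx y hy =>
    glue_lt_SS hNN (hSA x hx) (hSA y hy)
  have vSA : ∀ x ∈ S, ∀ a ∈ A, oR (glue A c r1 r2 N) x a = oR r1 x c := fun x hx a ha =>
    glue_lt_SA hN (hSA x hx) ha (hxc x hx)
  have vAA : ∀ a ∈ A, ∀ b ∈ A, oR (glue A c r1 r2 N) a b = oR r2 a b := fun a ha b hb =>
    glue_lt_AA ha hb
  have hinj : Set.InjOn (glue A c r1 r2 N) (S ∪ A) := by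
    intro x hx y hy h
    rcases hx with hx | hx <;> rcases hy with hy | hy
    · rw [glue_nA (hSA x hx), glue_nA (hSA y hy)] at h
      exact hg1.inj (hSP hx) (hSP hy) (Nat.eq_of_mul_eq_mul_left hNN h)
    · exact absurd h (glue_ne_SA hN (hSA x hx) hy (hxc x hx))
    · exact absurd h.symm (glue_ne_SA hN (hSA y hy) hx (hxc y hy))
    · rw [glue_A hx, glue_A hy] at h
      exact hg2.inj (Or.inl hx) (Or.inl hy) (by omega)
  have vAS : ∀ a ∈ A, ∀ x ∈ S, oR (glue A c r1 r2 N) a x = oR r1 x c + 1 := by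
    intro a ha x hx
    rw [oR_anti hinj (Or.inl hx) (Or.inr ha) (by rintro rfl; exact hSA x hx ha), vSA x hx a ha]
  have v2s : ∀ a ∈ A, oR r2 s0 a = 1 := fun a ha => by
    unfold oR
    rw [if_pos (hmin a ha)]
  have v2s' : ∀ a ∈ A, oR r2 a s0 = 0 := fun a ha => by
    unfold oR
    rw [if_neg (by have := hmin a ha; omega)]
  -- the split `S`
  have hdd : ∀ x ∈ S, ∀ y ∈ S, ∀ a ∈ A, ∀ b ∈ A, cr o x y a b = 0 := by
    intro x hx y hy a ha b hb
    rw [cr_add o x y a c b, cr_swap_right, hd x hx y hy c hcP hcS a ha, hd x hx y hy c hcP hcS b hb,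
      add_zero]
  have hdd' : ∀ a ∈ A, ∀ b ∈ A, ∀ x ∈ S, ∀ y ∈ S, cr o a b x y = 0 := by
    intro a ha b hb x hx y hy
    rw [cr_symm ho (by rintro rfl; exact hAS _ ha hx) (by rintro rfl; exact hAS _ ha hy)
      (by rintro rfl; exact hAS _ hb hx) (by rintro rfl; exact hAS _ hb hy)]
    exact hdd x hx y hy a ha b hb
  -- restriction of splits to `P`
  have toP : ∀ T : Set V, (∀ t ∈ T, t ∈ S) → ∀ z ∈ A,
      (∀ p ∈ S, ∀ q ∈ S, p ∈ T → q ∈ T → ∀ u ∈ S, u ∉ T → cr o p q u z = 0) → Split o P T := by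
    intro T hT z hz h p hp q hq u hu w hw hpT hqT huT hwT
    have key : ∀ v ∈ P, v ∉ T → cr o p q v z = 0 := by
      intro v hv hvT
      by_cases hvS : v ∈ S
      · exact h p (hT p hpT) q (hT q hqT) hpT hqT v hvS hvT
      · exact hd p (hT p hpT) q (hT q hqT) v hv hvS z hz
    rw [cr_add o p q u z w, key u hu huT, cr_swap_right, key w hw hwT, add_zero]
  -- restriction of splits to `A ∪ {s0}`
  have toA : ∀ T : Set V, (∀ t ∈ T, t ∈ A) → ∀ z ∈ S,
      (∀ p ∈ A, ∀ q ∈ A, p ∈ T → q ∈ T → ∀ u ∈ A, u ∉ T → cr o p q u z = 0) →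
      Split o (A ∪ {s0}) T := by
    intro T hT z hz h p hp q hq u hu w hw hpT hqT huT hwT
    have key : ∀ v ∈ A ∪ {s0}, v ∉ T → cr o p q v z = 0 := by
      intro v hv hvT
      rcases hv with hv | hv
      · exact h p (hT p hpT) q (hT q hqT) hpT hqT v hv hvT
      · rw [Set.mem_singleton_iff] at hv
        subst hv
        exact hdd' p (hT p hpT) q (hT q hqT) _ hs0 z hz
    rw [cr_add o p q u z w, key u hu huT, cr_swap_right, key w hw hwT, add_zero]
  -- splits inside `S`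
  have caseS : ∀ T : Set V, (∀ t ∈ T, t ∈ S) → Split o (S ∪ A) T → Split (oR (glue A c r1 r2 N)) (S ∪ A) T := by
    intro T hT h
    have h1 : Split o P T := toP T hT a0 ha0 (fun p hp q hq hpT hqT u hu huT =>
      h p (Or.inl hp) q (Or.inl hq) u (Or.inl hu) a0 (Or.inr ha0) hpT hqT huT
        (fun h' => hAS a0 ha0 (hT a0 h')))
    have h2 := hg1.split T h1
    intro p hp q hq u hu w hw hpT hqT huT hwT
    have hpS := hT p hpT
    have hqS := hT q hqT
    have key : ∀ v ∈ S ∪ A, v ∉ T → cr (oR (glue A c r1 r2 N)) p q v a0 = 0 := by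
      intro v hv hvT
      rcases hv with hv | hv
      · have := h2 p (hSP hpS) q (hSP hqS) v (hSP hv) c hcP hpT hqT hvT (fun h' => hcS (hT c h'))
        unfold cr at this ⊢
        rw [vSS p hpS v hv, vSS q hqS v hv, vSA p hpS a0 ha0, vSA q hqS a0 ha0]
        exact this
      · unfold cr
        rw [vSA p hpS v hv, vSA q hqS v hv, vSA p hpS a0 ha0, vSA q hqS a0 ha0]
        grind
    rw [cr_add _ p q u a0 w, key u hu huT, cr_swap_right, key w hw hwT, add_zero]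
  -- splits inside `A`
  have caseA : ∀ T : Set V, (∀ t ∈ T, t ∈ A) → Split o (S ∪ A) T → Split (oR (glue A c r1 r2 N)) (S ∪ A) T := by
    intro T hT h
    have h1 : Split o (A ∪ {s0}) T := toA T hT s0 hs0 (fun p hp q hq hpT hqT u hu huT =>
      h p (Or.inr hp) q (Or.inr hq) u (Or.inr hu) s0 (Or.inl hs0) hpT hqT huT
        (fun h' => hs0A (hT s0 h')))
    have h2 := hg2.split T h1
    intro p hp q hq u hu w hw hpT hqT huT hwT
    have hpA := hT p hpT
    have hqA := hT q hqT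
    have key : ∀ v ∈ S ∪ A, v ∉ T → cr (oR (glue A c r1 r2 N)) p q v s0 = 0 := by
      intro v hv hvT
      rcases hv with hv | hv
      · unfold cr
        rw [vAS p hpA v hv, vAS q hqA v hv, vAS p hpA s0 hs0, vAS q hqA s0 hs0]
        grind
      · have := h2 p (Or.inl hpA) q (Or.inl hqA) v (Or.inl hv) s0 (Or.inr rfl) hpT hqT hvT
          (fun h' => hs0A (hT s0 h'))
        unfold cr at this ⊢
        rw [v2s' p hpA, v2s' q hqA] at this
        rw [vAA p hpA v hv, vAA q hqA v hv, vAS p hpA s0 hs0, vAS q hqA s0 hs0]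
        grind
    rw [cr_add _ p q u s0 w, key u hu huT, cr_swap_right, key w hw hwT, add_zero]
  have hanti : ∀ x ∈ S ∪ A, ∀ y ∈ S ∪ A, x ≠ y →
      oR (glue A c r1 r2 N) y x = oR (glue A c r1 r2 N) x y + 1 := fun x hx y hy hxy =>
    oR_anti hinj hx hy hxy
  -- complements
  have symK : ∀ x ∈ S ∪ A, ∀ y ∈ S ∪ A, ∀ a ∈ S ∪ A, ∀ b ∈ S ∪ A, x ≠ a → x ≠ b → y ≠ a → y ≠ b →
      cr (oR (glue A c r1 r2 N)) x y a b = cr (oR (glue A c r1 r2 N)) a b x y := by
    intro x hx y hy a ha b hb h1 h2 h3 h4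
    unfold cr
    have e1 := hanti x hx a ha h1
    have e2 := hanti x hx b hb h2
    have e3 := hanti y hy a ha h3
    have e4 := hanti y hy b hb h4
    grind
  -- tripartitions, with two parts meeting `S` and the third meeting `A`
  have triS : ∀ X Y Z : Set V, (∀ x ∈ S ∪ A, x ∈ X ∨ x ∈ Y ∨ x ∈ Z) →
      (∀ x ∈ S ∪ A, ¬ (x ∈ X ∧ x ∈ Y)) → (∀ x ∈ S ∪ A, ¬ (x ∈ X ∧ x ∈ Z)) →
      (∀ x ∈ S ∪ A, ¬ (x ∈ Y ∧ x ∈ Z)) → Split o (S ∪ A) X → Split o (S ∪ A) Y →
      Split o (S ∪ A) Z → ∀ x ∈ S, ∀ y ∈ S, ∀ z ∈ A, x ∈ X → y ∈ Y → z ∈ Z →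
      fo (oR (glue A c r1 r2 N)) x y z = fo o x y z := by
    intro X Y Z hc hXY hXZ hYZ sX sY sZ x hx y hy z hz hxX hyY hzZ
    have hzX : z ∉ X := fun h => hXZ z (Or.inr hz) ⟨h, hzZ⟩
    have hzY : z ∉ Y := fun h => hYZ z (Or.inr hz) ⟨h, hzZ⟩
    have pX : Split o P (X ∩ S) := toP _ (fun t ht => ht.2) z hz (fun p hp q hq hpT hqT u hu huT =>
      sX p (Or.inl hp) q (Or.inl hq) u (Or.inl hu) z (Or.inr hz) hpT.1 hqT.1
        (fun h => huT ⟨h, hu⟩) hzX)
    have pY : Split o P (Y ∩ S) := toP _ (fun t ht => ht.2) z hz (fun p hp q hq hpT hqT u hu huT =>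
      sY p (Or.inl hp) q (Or.inl hq) u (Or.inl hu) z (Or.inr hz) hpT.1 hqT.1
        (fun h => huT ⟨h, hu⟩) hzY)
    have pW : Split o P ((X ∩ S) ∪ (Y ∩ S)) := toP _ (fun t ht => ht.elim (·.2) (·.2)) z hz (by
      intro p hp q hq hpT hqT u hu huT
      have hnz : ∀ p ∈ S, p ∈ (X ∩ S) ∪ (Y ∩ S) → p ∉ Z := by
        intro p hp hpT hpZ
        rcases hpT with h | h
        · exact hXZ p (Or.inl hp) ⟨h.1, hpZ⟩
        · exact hYZ p (Or.inl hp) ⟨h.1, hpZ⟩
      have huZ : u ∈ Z := by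
        rcases hc u (Or.inl hu) with h | h | h
        · exact absurd (Or.inl ⟨h, hu⟩) huT
        · exact absurd (Or.inr ⟨h, hu⟩) huT
        · exact h
      rw [cr_symm ho (by rintro rfl; exact hnz _ hp hpT huZ)
        (by rintro rfl; exact hAS _ hz hp) (by rintro rfl; exact hnz _ hq hqT huZ)
        (by rintro rfl; exact hAS _ hz hq)]
      exact sZ u (Or.inl hu) z (Or.inr hz) p (Or.inl hp) q (Or.inl hq) huZ hzZ (hnz p hp hpT)
        (hnz q hq hqT))
    have hcX : c ∉ X ∩ S := fun h => hcS h.2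
    have hcY : c ∉ Y ∩ S := fun h => hcS h.2
    have h1 := hg1.tri (X ∩ S) (Y ∩ S) ((X ∩ S) ∪ (Y ∩ S))ᶜ
      (by
        intro v _
        by_cases h1 : v ∈ X ∩ S
        · exact Or.inl h1
        · by_cases h2 : v ∈ Y ∩ S
          · exact Or.inr (Or.inl h2)
          · exact Or.inr (Or.inr (fun h => h.elim h1 h2)))
      (by rintro v _ ⟨h1, h2⟩; exact hXY v (Or.inl h1.2) ⟨h1.1, h2.1⟩)
      (by rintro v _ ⟨h1, h2⟩; exact h2 (Or.inl h1))
      (by rintro v _ ⟨h1, h2⟩; exact h2 (Or.inr h1)) pX pY (pW.compl ho)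
      x (hSP hx) y (hSP hy) c hcP ⟨hxX, hx⟩ ⟨hyY, hy⟩ (fun h => h.elim hcX hcY)
    have h2 := hd x hx y hy c hcP hcS z hz
    have a1 := vSS x hx y hy
    have a2 := vSA y hy z hz
    have a3 := vAS z hz x hx
    have a4 : oR r1 c x = oR r1 x c + 1 := oR_anti hg1.inj (hSP hx) hcP (by rintro rfl; exact hcS hx)
    have a5 := ho x z (by rintro rfl; exact hAS _ hz hx)
    have a6 := ho x c (by rintro rfl; exact hcS hx)
    unfold fo at h1 ⊢
    unfold cr at h2
    grind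
  -- tripartitions, with two parts meeting `A` and the third meeting `S`
  have triA : ∀ X Y Z : Set V, (∀ x ∈ S ∪ A, x ∈ X ∨ x ∈ Y ∨ x ∈ Z) →
      (∀ x ∈ S ∪ A, ¬ (x ∈ X ∧ x ∈ Y)) → (∀ x ∈ S ∪ A, ¬ (x ∈ X ∧ x ∈ Z)) →
      (∀ x ∈ S ∪ A, ¬ (x ∈ Y ∧ x ∈ Z)) → Split o (S ∪ A) X → Split o (S ∪ A) Y →
      Split o (S ∪ A) Z → ∀ x ∈ A, ∀ y ∈ A, ∀ z ∈ S, x ∈ X → y ∈ Y → z ∈ Z →
      fo (oR (glue A c r1 r2 N)) x y z = fo o x y z := by
    intro X Y Z hc hXY hXZ hYZ sX sY sZ x hx y hy z hz hxX hyY hzZ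
    have hzX : z ∉ X := fun h => hXZ z (Or.inl hz) ⟨h, hzZ⟩
    have hzY : z ∉ Y := fun h => hYZ z (Or.inl hz) ⟨h, hzZ⟩
    have pX : Split o (A ∪ {s0}) (X ∩ A) := toA _ (fun t ht => ht.2) z hz
      (fun p hp q hq hpT hqT u hu huT =>
      sX p (Or.inr hp) q (Or.inr hq) u (Or.inr hu) z (Or.inl hz) hpT.1 hqT.1
        (fun h => huT ⟨h, hu⟩) hzX)
    have pY : Split o (A ∪ {s0}) (Y ∩ A) := toA _ (fun t ht => ht.2) z hz
      (fun p hp q hq hpT hqT u hu huT =>
      sY p (Or.inr hp) q (Or.inr hq) u (Or.inr hu) z (Or.inl hz) hpT.1 hqT.1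
        (fun h => huT ⟨h, hu⟩) hzY)
    have pW : Split o (A ∪ {s0}) ((X ∩ A) ∪ (Y ∩ A)) := toA _ (fun t ht => ht.elim (·.2) (·.2)) z hz
      (by
      intro p hp q hq hpT hqT u hu huT
      have hnz : ∀ p ∈ A, p ∈ (X ∩ A) ∪ (Y ∩ A) → p ∉ Z := by
        intro p hp hpT hpZ
        rcases hpT with h | h
        · exact hXZ p (Or.inr hp) ⟨h.1, hpZ⟩
        · exact hYZ p (Or.inr hp) ⟨h.1, hpZ⟩
      have huZ : u ∈ Z := by
        rcases hc u (Or.inr hu) with h | h | h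
        · exact absurd (Or.inl ⟨h, hu⟩) huT
        · exact absurd (Or.inr ⟨h, hu⟩) huT
        · exact h
      rw [cr_symm ho (by rintro rfl; exact hnz _ hp hpT huZ)
        (by rintro rfl; exact hAS _ hp hz) (by rintro rfl; exact hnz _ hq hqT huZ)
        (by rintro rfl; exact hAS _ hq hz)]
      exact sZ u (Or.inr hu) z (Or.inl hz) p (Or.inr hp) q (Or.inr hq) huZ hzZ (hnz p hp hpT)
        (hnz q hq hqT))
    have hcX : s0 ∉ X ∩ A := fun h => hs0A h.2
    have hcY : s0 ∉ Y ∩ A := fun h => hs0A h.2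
    have h1 := hg2.tri (X ∩ A) (Y ∩ A) ((X ∩ A) ∪ (Y ∩ A))ᶜ
      (by
        intro v _
        by_cases h1 : v ∈ X ∩ A
        · exact Or.inl h1
        · by_cases h2 : v ∈ Y ∩ A
          · exact Or.inr (Or.inl h2)
          · exact Or.inr (Or.inr (fun h => h.elim h1 h2)))
      (by rintro v _ ⟨h1, h2⟩; exact hXY v (Or.inr h1.2) ⟨h1.1, h2.1⟩)
      (by rintro v _ ⟨h1, h2⟩; exact h2 (Or.inl h1))
      (by rintro v _ ⟨h1, h2⟩; exact h2 (Or.inr h1)) pX pY (pW.compl ho)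
      x (Or.inl hx) y (Or.inl hy) s0 (Or.inr rfl) ⟨hxX, hx⟩ ⟨hyY, hy⟩ (fun h => h.elim hcX hcY)
    have h2 := hdd' x hx y hy s0 hs0 z hz
    have a1 := vAA x hx y hy
    have a2 := vAS y hy z hz
    have a3 := vSA z hz x hx
    have a4 := v2s x hx
    have a5 := v2s' y hy
    have a6 := ho x z (by rintro rfl; exact hAS _ hx hz)
    have a7 := ho x s0 (by rintro rfl; exact hs0A hx)
    unfold fo at h1 ⊢
    unfold cr at h2
    grind
  have hsplit : ∀ R : Set V, Split o (S ∪ A) R → Split (oR (glue A c r1 r2 N)) (S ∪ A) R := by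
    intro R hR
    by_cases h1 : ∃ x ∈ S, x ∈ R
    swap
    · have hT : Split (oR (glue A c r1 r2 N)) (S ∪ A) (R ∩ A) := by
        apply caseA _ (fun t ht => ht.2)
        intro x hx y hy a ha b hb hxR hyR haR hbR
        refine hR x hx y hy a ha b hb hxR.1 hyR.1 ?_ ?_
        · rintro h
          rcases ha with ha | ha
          · exact h1 ⟨a, ha, h⟩
          · exact haR ⟨h, ha⟩
        · rintro h
          rcases hb with hb | hb
          · exact h1 ⟨b, hb, h⟩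
          · exact hbR ⟨h, hb⟩
      intro x hx y hy a ha b hb hxR hyR haR hbR
      refine hT x hx y hy a ha b hb ⟨hxR, ?_⟩ ⟨hyR, ?_⟩ (fun h => haR h.1) (fun h => hbR h.1)
      · exact hx.resolve_left (fun h => h1 ⟨x, h, hxR⟩)
      · exact hy.resolve_left (fun h => h1 ⟨y, h, hyR⟩)
    by_cases h2 : ∃ x ∈ A, x ∈ R
    swap
    · have hT : Split (oR (glue A c r1 r2 N)) (S ∪ A) (R ∩ S) := by
        apply caseS _ (fun t ht => ht.2)
        intro x hx y hy a ha b hb hxR hyR haR hbR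
        refine hR x hx y hy a ha b hb hxR.1 hyR.1 ?_ ?_
        · rintro h
          rcases ha with ha | ha
          · exact haR ⟨h, ha⟩
          · exact h2 ⟨a, ha, h⟩
        · rintro h
          rcases hb with hb | hb
          · exact hbR ⟨h, hb⟩
          · exact h2 ⟨b, hb, h⟩
      intro x hx y hy a ha b hb hxR hyR haR hbR
      refine hT x hx y hy a ha b hb ⟨hxR, ?_⟩ ⟨hyR, ?_⟩ (fun h => haR h.1) (fun h => hbR h.1)
      · exact hx.resolve_right (fun h => h2 ⟨x, h, hxR⟩)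
      · exact hy.resolve_right (fun h => h2 ⟨y, h, hyR⟩)
    by_cases h3 : ∃ x ∈ S, x ∉ R
    swap
    · have hT : Split (oR (glue A c r1 r2 N)) (S ∪ A) (Rᶜ ∩ A) := by
        apply caseA _ (fun t ht => ht.2)
        intro x hx y hy a ha b hb hxR hyR haR hbR
        refine (hR.compl ho) x hx y hy a ha b hb hxR.1 hyR.1 ?_ ?_
        · rintro h
          rcases ha with ha | ha
          · exact h3 ⟨a, ha, h⟩
          · exact haR ⟨h, ha⟩
        · rintro h
          rcases hb with hb | hb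
          · exact h3 ⟨b, hb, h⟩
          · exact hbR ⟨h, hb⟩
      intro x hx y hy a ha b hb hxR hyR haR hbR
      rw [symK x hx y hy a ha b hb (by rintro rfl; exact haR hxR) (by rintro rfl; exact hbR hxR)
        (by rintro rfl; exact haR hyR) (by rintro rfl; exact hbR hyR)]
      refine hT a ha b hb x hx y hy ⟨haR, ?_⟩ ⟨hbR, ?_⟩ (fun h => h.1 hxR) (fun h => h.1 hyR)
      · exact ha.resolve_left (fun h => h3 ⟨a, h, haR⟩)
      · exact hb.resolve_left (fun h => h3 ⟨b, h, hbR⟩)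
    by_cases h4 : ∃ x ∈ A, x ∉ R
    swap
    · have hT : Split (oR (glue A c r1 r2 N)) (S ∪ A) (Rᶜ ∩ S) := by
        apply caseS _ (fun t ht => ht.2)
        intro x hx y hy a ha b hb hxR hyR haR hbR
        refine (hR.compl ho) x hx y hy a ha b hb hxR.1 hyR.1 ?_ ?_
        · rintro h
          rcases ha with ha | ha
          · exact haR ⟨h, ha⟩
          · exact h4 ⟨a, ha, h⟩
        · rintro h
          rcases hb with hb | hb
          · exact hbR ⟨h, hb⟩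
          · exact h4 ⟨b, hb, h⟩
      intro x hx y hy a ha b hb hxR hyR haR hbR
      rw [symK x hx y hy a ha b hb (by rintro rfl; exact haR hxR) (by rintro rfl; exact hbR hxR)
        (by rintro rfl; exact haR hyR) (by rintro rfl; exact hbR hyR)]
      refine hT a ha b hb x hx y hy ⟨haR, ?_⟩ ⟨hbR, ?_⟩ (fun h => h.1 hxR) (fun h => h.1 hyR)
      · exact ha.resolve_right (fun h => h4 ⟨a, h, haR⟩)
      · exact hb.resolve_right (fun h => h4 ⟨b, h, hbR⟩)
    -- the crossing case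
    obtain ⟨x0, hx0, hx0R⟩ := h1
    obtain ⟨y0, hy0, hy0R⟩ := h2
    obtain ⟨u0, hu0, hu0R⟩ := h3
    obtain ⟨w0, hw0, hw0R⟩ := h4
    -- intersections
    have inter : ∀ T : Set V, Split o (S ∪ A) T → ∀ U : Set V, Split o (S ∪ A) U →
        ∀ v ∈ S ∪ A, v ∉ T → v ∉ U → Split o (S ∪ A) (T ∩ U) := by
      intro T hT U hU v hv hvT hvU p hp q hq u hu w hw hpT hqT huT hwT
      have key : ∀ t ∈ S ∪ A, t ∉ T ∩ U → cr o p q t v = 0 := by
        intro t ht htT
        by_cases h : t ∈ T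
        · exact hU p hp q hq t ht v hv hpT.2 hqT.2 (fun h' => htT ⟨h, h'⟩) hvU
        · exact hT p hp q hq t ht v hv hpT.1 hqT.1 h hvT
      rw [cr_add o p q u v w, key u hu huT, cr_swap_right, key w hw hwT, add_zero]
    have sS : Split o (S ∪ A) S := by
      intro p hp q hq u hu w hw hpT hqT huT hwT
      exact hdd p hpT q hqT u (hu.resolve_left huT) w (hw.resolve_left hwT)
    have sA : Split o (S ∪ A) A := by
      intro p hp q hq u hu w hw hpT hqT huT hwT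
      exact hdd' p hpT q hqT u (hu.resolve_right huT) w (hw.resolve_right hwT)
    have c1 := caseS (R ∩ S) (fun t ht => ht.2)
      (inter R hR S sS w0 (Or.inr hw0) hw0R (hAS w0 hw0))
    have c2 := caseA (R ∩ A) (fun t ht => ht.2)
      (inter R hR A sA u0 (Or.inl hu0) hu0R (hSA u0 hu0))
    have c3 := caseS (Rᶜ ∩ S) (fun t ht => ht.2)
      (inter Rᶜ (hR.compl ho) S sS y0 (Or.inr hy0) (fun h => h hy0R) (hAS y0 hy0))
    have c4 := caseA (Rᶜ ∩ A) (fun t ht => ht.2)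
      (inter Rᶜ (hR.compl ho) A sA x0 (Or.inl hx0) (fun h => h hx0R) (hSA x0 hx0))
    -- the mixed case
    have mixed : ∀ p ∈ S, ∀ q ∈ A, ∀ u ∈ S, ∀ w ∈ A, p ∈ R → q ∈ R → u ∉ R → w ∉ R →
        cr (oR (glue A c r1 r2 N)) p q u w = 0 := by
      intro p hp q hq u hu w hw hpR hqR huR hwR
      have pX : Split o P (R ∩ S) := toP _ (fun t ht => ht.2) w hw
        (fun a ha b hb haT hbT v hv hvT => hR a (Or.inl ha) b (Or.inl hb) v (Or.inl hv) w
          (Or.inr hw) haT.1 hbT.1 (fun h => hvT ⟨h, hv⟩) hwR)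
      have pY : Split o P (Rᶜ ∩ S) := toP _ (fun t ht => ht.2) q hq
        (fun a ha b hb haT hbT v hv hvT => (hR.compl ho) a (Or.inl ha) b (Or.inl hb) v (Or.inl hv) q
          (Or.inr hq) haT.1 hbT.1 (fun h => hvT ⟨h, hv⟩) (fun h => h hqR))
      have pZ : Split o P S := toP _ (fun t ht => ht) q hq
        (fun a ha b hb haT hbT v hv hvT => absurd hv hvT)
      have h1 := hg1.tri (R ∩ S) (Rᶜ ∩ S) Sᶜ
        (by
          intro v _
          by_cases h1 : v ∈ S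
          · by_cases h2 : v ∈ R
            · exact Or.inl ⟨h2, h1⟩
            · exact Or.inr (Or.inl ⟨h2, h1⟩)
          · exact Or.inr (Or.inr h1))
        (by rintro v _ ⟨h1, h2⟩; exact h2.1 h1.1)
        (by rintro v _ ⟨h1, h2⟩; exact h2 h1.2)
        (by rintro v _ ⟨h1, h2⟩; exact h2 h1.2) pX pY (pZ.compl ho)
        p (hSP hp) u (hSP hu) c hcP ⟨hpR, hp⟩ ⟨huR, hu⟩ hcS
      have qX : Split o (A ∪ {s0}) (R ∩ A) := toA _ (fun t ht => ht.2) u hu
        (fun a ha b hb haT hbT v hv hvT => hR a (Or.inr ha) b (Or.inr hb) v (Or.inr hv) u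
          (Or.inl hu) haT.1 hbT.1 (fun h => hvT ⟨h, hv⟩) huR)
      have qY : Split o (A ∪ {s0}) (Rᶜ ∩ A) := toA _ (fun t ht => ht.2) p hp
        (fun a ha b hb haT hbT v hv hvT => (hR.compl ho) a (Or.inr ha) b (Or.inr hb) v (Or.inr hv) p
          (Or.inl hp) haT.1 hbT.1 (fun h => hvT ⟨h, hv⟩) (fun h => h hpR))
      have qZ : Split o (A ∪ {s0}) A := toA _ (fun t ht => ht) s0 hs0
        (fun a ha b hb haT hbT v hv hvT => absurd hv hvT)
      have h2 := hg2.tri (R ∩ A) (Rᶜ ∩ A) Aᶜ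
        (by
          intro v _
          by_cases h1 : v ∈ A
          · by_cases h2 : v ∈ R
            · exact Or.inl ⟨h2, h1⟩
            · exact Or.inr (Or.inl ⟨h2, h1⟩)
          · exact Or.inr (Or.inr h1))
        (by rintro v _ ⟨h1, h2⟩; exact h2.1 h1.1)
        (by rintro v _ ⟨h1, h2⟩; exact h2 h1.2)
        (by rintro v _ ⟨h1, h2⟩; exact h2 h1.2) qX qY (qZ.compl ho)
        q (Or.inl hq) w (Or.inl hw) s0 (Or.inr rfl) ⟨hqR, hq⟩ ⟨hwR, hw⟩ hs0A
      have e1 := vSS p hp u hu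
      have e2 := vAS q hq u hu
      have e3 := vSA p hp w hw
      have e4 := vAA q hq w hw
      have e5 : oR r1 c p = oR r1 p c + 1 :=
        oR_anti hg1.inj (hSP hp) hcP (by rintro rfl; exact hcS hp)
      have e6 := v2s q hq
      have e7 := v2s' w hw
      have e8 := hR p (Or.inl hp) q (Or.inr hq) u (Or.inl hu) w (Or.inr hw) hpR hqR huR hwR
      have e9 := hd p hp u hu c hcP hcS w hw
      have e10 := hdd' q hq w hw s0 hs0 u hu
      have e11 := ho p c (by rintro rfl; exact hcS hp)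
      have e12 := ho q s0 (by rintro rfl; exact hs0A hq)
      have e13 := ho u w (by rintro rfl; exact hAS _ hw hu)
      unfold fo at h1 h2
      unfold cr at e8 e9 e10 ⊢
      rw [e1, e2, e3, e4]
      clear hd hdd hdd' toP toA caseS caseA hanti symK triS triA inter sS sA c1 c2 c3 c4 vSS vSA vAA
        vAS v2s v2s' pX pY pZ qX qY qZ hinj hxc
      grind
    have swl : ∀ p q u w : V, cr (oR (glue A c r1 r2 N)) p q u w =
        cr (oR (glue A c r1 r2 N)) q p u w := by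
      intro p q u w
      unfold cr
      ring
    intro p hp q hq u hu w hw hpR hqR huR hwR
    have hpu : p ≠ u := by rintro rfl; exact huR hpR
    have hpw : p ≠ w := by rintro rfl; exact hwR hpR
    have hqu : q ≠ u := by rintro rfl; exact huR hqR
    have hqw : q ≠ w := by rintro rfl; exact hwR hqR
    rcases hp with hp | hp <;> rcases hq with hq | hq
    · exact c1 p (Or.inl hp) q (Or.inl hq) u hu w hw ⟨hpR, hp⟩ ⟨hqR, hq⟩ (fun h => huR h.1)
        (fun h => hwR h.1)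
    · rcases hu with hu | hu <;> rcases hw with hw | hw
      · rw [symK p (Or.inl hp) q (Or.inr hq) u (Or.inl hu) w (Or.inl hw) hpu hpw hqu hqw]
        exact c3 u (Or.inl hu) w (Or.inl hw) p (Or.inl hp) q (Or.inr hq) ⟨huR, hu⟩ ⟨hwR, hw⟩
          (fun h => h.1 hpR) (fun h => h.1 hqR)
      · exact mixed p hp q hq u hu w hw hpR hqR huR hwR
      · rw [cr_swap_right]
        exact mixed p hp q hq w hw u hu hpR hqR hwR huR
      · rw [symK p (Or.inl hp) q (Or.inr hq) u (Or.inr hu) w (Or.inr hw) hpu hpw hqu hqw]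
        exact c4 u (Or.inr hu) w (Or.inr hw) p (Or.inl hp) q (Or.inr hq) ⟨huR, hu⟩ ⟨hwR, hw⟩
          (fun h => h.1 hpR) (fun h => h.1 hqR)
    · rcases hu with hu | hu <;> rcases hw with hw | hw
      · rw [symK p (Or.inr hp) q (Or.inl hq) u (Or.inl hu) w (Or.inl hw) hpu hpw hqu hqw]
        exact c3 u (Or.inl hu) w (Or.inl hw) p (Or.inr hp) q (Or.inl hq) ⟨huR, hu⟩ ⟨hwR, hw⟩
          (fun h => h.1 hpR) (fun h => h.1 hqR)
      · rw [swl]
        exact mixed q hq p hp u hu w hw hqR hpR huR hwR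
      · rw [cr_swap_right, swl]
        exact mixed q hq p hp w hw u hu hqR hpR hwR huR
      · rw [symK p (Or.inr hp) q (Or.inl hq) u (Or.inr hu) w (Or.inr hw) hpu hpw hqu hqw]
        exact c4 u (Or.inr hu) w (Or.inr hw) p (Or.inr hp) q (Or.inl hq) ⟨huR, hu⟩ ⟨hwR, hw⟩
          (fun h => h.1 hpR) (fun h => h.1 hqR)
    · exact c2 p (Or.inr hp) q (Or.inr hq) u hu w hw ⟨hpR, hp⟩ ⟨hqR, hq⟩ (fun h => huR h.1)
        (fun h => hwR h.1)
  refine ⟨hinj, hsplit, ?_⟩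
  · -- tripartitions
    clear toP toA caseS caseA vSS vSA vAA vAS v2s v2s' hdd hdd' hd
    have rot : ∀ (f : V → V → ZMod 2) (x y z : V), fo f x y z = fo f y z x := by
      intro f x y z
      unfold fo
      ring
    have mixed : ∀ X Y Z : Set V, (∀ x ∈ S ∪ A, x ∈ X ∨ x ∈ Y ∨ x ∈ Z) →
      (∀ x ∈ S ∪ A, ¬ (x ∈ X ∧ x ∈ Y)) → (∀ x ∈ S ∪ A, ¬ (x ∈ X ∧ x ∈ Z)) →
      (∀ x ∈ S ∪ A, ¬ (x ∈ Y ∧ x ∈ Z)) → Split o (S ∪ A) X → Split o (S ∪ A) Y →
      Split o (S ∪ A) Z → ∀ x ∈ S ∪ A, ∀ y ∈ S ∪ A, ∀ z ∈ S ∪ A, x ∈ X → y ∈ Y → z ∈ Z →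
      ¬ (x ∈ S ∧ y ∈ S ∧ z ∈ S) → ¬ (x ∈ A ∧ y ∈ A ∧ z ∈ A) →
      fo (oR (glue A c r1 r2 N)) x y z = fo o x y z := by
      intro X Y Z hc hXY hXZ hYZ sX sY sZ x hx y hy z hz hxX hyY hzZ n1 n2
      have hYX : ∀ x ∈ S ∪ A, ¬ (x ∈ Y ∧ x ∈ X) := fun x hx h => hXY x hx ⟨h.2, h.1⟩
      have hZX : ∀ x ∈ S ∪ A, ¬ (x ∈ Z ∧ x ∈ X) := fun x hx h => hXZ x hx ⟨h.2, h.1⟩
      have hZY : ∀ x ∈ S ∪ A, ¬ (x ∈ Z ∧ x ∈ Y) := fun x hx h => hYZ x hx ⟨h.2, h.1⟩
      have hc1 : ∀ x ∈ S ∪ A, x ∈ Y ∨ x ∈ Z ∨ x ∈ X := fun x hx => by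
        rcases hc x hx with h | h | h
        · exact Or.inr (Or.inr h)
        · exact Or.inl h
        · exact Or.inr (Or.inl h)
      have hc2 : ∀ x ∈ S ∪ A, x ∈ Z ∨ x ∈ X ∨ x ∈ Y := fun x hx => by
        rcases hc x hx with h | h | h
        · exact Or.inr (Or.inl h)
        · exact Or.inr (Or.inr h)
        · exact Or.inl h
      rcases hx with hx | hx <;> rcases hy with hy | hy <;> rcases hz with hz | hz
      · exact absurd ⟨hx, hy, hz⟩ n1
      · exact triS X Y Z hc hXY hXZ hYZ sX sY sZ x hx y hy z hz hxX hyY hzZ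
      · have := triS Z X Y hc2 hZX hZY hXY sZ sX sY z hz x hx y hy hzZ hxX hyY
        rw [rot _ z x y, rot _ z x y] at this
        exact this
      · have := triA Y Z X hc1 hYZ hYX hZX sY sZ sX y hy z hz x hx hyY hzZ hxX
        rw [rot _ x y z, rot _ x y z]
        exact this
      · have := triS Y Z X hc1 hYZ hYX hZX sY sZ sX y hy z hz x hx hyY hzZ hxX
        rw [rot _ x y z, rot _ x y z]
        exact this
      · have := triA Z X Y hc2 hZX hZY hXY sZ sX sY z hz x hx y hy hzZ hxX hyY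
        rw [rot _ z x y, rot _ z x y] at this
        exact this
      · exact triA X Y Z hc hXY hXZ hYZ sX sY sZ x hx y hy z hz hxX hyY hzZ
      · exact absurd ⟨hx, hy, hz⟩ n2
    have repo : ∀ X : Set V, Split o (S ∪ A) X → ∀ x ∈ S ∪ A, ∀ x' ∈ S ∪ A, ∀ y ∈ S ∪ A,
        ∀ z ∈ S ∪ A, x ∈ X → x' ∈ X → y ∉ X → z ∉ X → fo o x y z = fo o x' y z := by
      intro X sX x hx x' hx' y hy z hz hxX hxX' hyX hzX
      have h1 := sX x hx x' hx' y hy z hz hxX hxX' hyX hzX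
      have h2 := ho x z (by rintro rfl; exact hzX hxX)
      have h3 := ho x' z (by rintro rfl; exact hzX hxX')
      unfold cr at h1
      unfold fo
      grind
    have repf : ∀ X : Set V, Split o (S ∪ A) X → ∀ x ∈ S ∪ A, ∀ x' ∈ S ∪ A, ∀ y ∈ S ∪ A,
        ∀ z ∈ S ∪ A, x ∈ X → x' ∈ X → y ∉ X → z ∉ X →
        fo (oR (glue A c r1 r2 N)) x y z = fo (oR (glue A c r1 r2 N)) x' y z := by
      intro X sX x hx x' hx' y hy z hz hxX hxX' hyX hzX
      have h1 := hsplit X sX x hx x' hx' y hy z hz hxX hxX' hyX hzX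
      have h2 := hanti x hx z hz (by rintro rfl; exact hzX hxX)
      have h3 := hanti x' hx' z hz (by rintro rfl; exact hzX hxX')
      unfold cr at h1
      unfold fo
      grind
    intro X Y Z hc hXY hXZ hYZ sX sY sZ x hx y hy z hz hxX hyY hzZ
    have hXn : ∀ v ∈ S ∪ A, v ∈ X → v ∉ Y ∧ v ∉ Z := fun v hv h =>
      ⟨fun h' => hXY v hv ⟨h, h'⟩, fun h' => hXZ v hv ⟨h, h'⟩⟩
    have hYn : ∀ v ∈ S ∪ A, v ∈ Y → v ∉ X ∧ v ∉ Z := fun v hv h =>
      ⟨fun h' => hXY v hv ⟨h', h⟩, fun h' => hYZ v hv ⟨h, h'⟩⟩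
    have hZn : ∀ v ∈ S ∪ A, v ∈ Z → v ∉ X ∧ v ∉ Y := fun v hv h =>
      ⟨fun h' => hXZ v hv ⟨h', h⟩, fun h' => hYZ v hv ⟨h', h⟩⟩
    -- replacing one of the three elements by `v`
    have repl : ∀ v ∈ S ∪ A, ¬ (v ∈ S ∧ x ∈ S ∧ y ∈ S) → ¬ (v ∈ S ∧ x ∈ S ∧ z ∈ S) →
        ¬ (v ∈ S ∧ y ∈ S ∧ z ∈ S) → ¬ (v ∈ A ∧ x ∈ A ∧ y ∈ A) → ¬ (v ∈ A ∧ x ∈ A ∧ z ∈ A) →
        ¬ (v ∈ A ∧ y ∈ A ∧ z ∈ A) → fo (oR (glue A c r1 r2 N)) x y z = fo o x y z := by
      intro v hv n1 n2 n3 n4 n5 n6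
      rcases hc v hv with h | h | h
      · rw [repo X sX x hx v hv y hy z hz hxX h (hYn y hy hyY).1 (hZn z hz hzZ).1,
          repf X sX x hx v hv y hy z hz hxX h (hYn y hy hyY).1 (hZn z hz hzZ).1]
        exact mixed X Y Z hc hXY hXZ hYZ sX sY sZ v hv y hy z hz h hyY hzZ n3 n6
      · rw [rot _ x y z, rot _ x y z,
          repo Y sY y hy v hv z hz x hx hyY h (hZn z hz hzZ).2 (hXn x hx hxX).1,
          repf Y sY y hy v hv z hz x hx hyY h (hZn z hz hzZ).2 (hXn x hx hxX).1,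
          ← rot _ x v z, ← rot _ x v z]
        exact mixed X Y Z hc hXY hXZ hYZ sX sY sZ x hx v hv z hz hxX h hzZ
          (fun h' => n2 ⟨h'.2.1, h'.1, h'.2.2⟩) (fun h' => n5 ⟨h'.2.1, h'.1, h'.2.2⟩)
      · rw [← rot _ z x y, ← rot _ z x y,
          repo Z sZ z hz v hv x hx y hy hzZ h (hXn x hx hxX).2 (hYn y hy hyY).2,
          repf Z sZ z hz v hv x hx y hy hzZ h (hXn x hx hxX).2 (hYn y hy hyY).2,
          rot _ v x y, rot _ v x y]
        exact mixed X Y Z hc hXY hXZ hYZ sX sY sZ x hx y hy v hv hxX hyY h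
          (fun h' => n1 ⟨h'.2.2, h'.1, h'.2.1⟩) (fun h' => n4 ⟨h'.2.2, h'.1, h'.2.1⟩)
    by_cases hS : x ∈ S ∧ y ∈ S ∧ z ∈ S
    · have e1 := hSA x hS.1
      have e2 := hSA y hS.2.1
      have e3 := hSA z hS.2.2
      have e4 := hAS a0 ha0
      exact repl a0 (Or.inr ha0) (fun h => e4 h.1) (fun h => e4 h.1) (fun h => e4 h.1)
        (fun h => e1 h.2.1) (fun h => e1 h.2.1) (fun h => e2 h.2.1)
    · by_cases hA' : x ∈ A ∧ y ∈ A ∧ z ∈ A
      · have e1 := hAS x hA'.1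
        have e2 := hAS y hA'.2.1
        have e3 := hAS z hA'.2.2
        exact repl s0 (Or.inl hs0) (fun h => e1 h.2.1) (fun h => e1 h.2.1) (fun h => e2 h.2.1)
          (fun h => hs0A h.1) (fun h => hs0A h.1) (fun h => hs0A h.1)
      · exact mixed X Y Z hc hXY hXZ hYZ sX sY sZ x hx y hy z hz hxX hyY hzZ hS hA'

end Glue

end Pool.Agent.H255R3.STC
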