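import Pool.Agent.H255R3.STC.Algo

/-!
# Semi-transitive chordal graphs are recognised in polynomial time
-/

set_option autoImplicit false

namespace Pool.Agent.NPC.H255STC

open Pool.Agent.H334R5.Lin Pool.Agent.H255R3.STC

/-- The linear functional of an assignment. -/
noncomputable def lin (σ : ℕ × ℕ → ZMod 2) : (ℕ × ℕ →₀ ZMod 2) →ₗ[ZMod 2] ZMod 2 :=
  Finsupp.linearCombination (ZMod 2) σ

theorem lin_vec (σ : ℕ × ℕ → ZMod 2) (v : List ((ℕ × ℕ) × ℕ)) :
    lin σ (vec 2 v) = (v.map (fun e => (e.2 : ZMod 2) * σ e.1)).sum := by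
  induction v with
  | nil => simp [vec]
  | cons e v ih =>
    rw [vec_cons, map_add, ih, List.map_cons, List.sum_cons]
    unfold lin
    rw [Finsupp.linearCombination_single, smul_eq_mul]

/-- The value of a pair. -/
def val (σ : ℕ × ℕ → ZMod 2) (u v : ℕ) : ZMod 2 :=
  σ (min u v, max u v) + (if v < u then 1 else 0)

theorem lin_ent {σ : ℕ × ℕ → ZMod 2} (h0 : σ (0, 0) = 1) (u v : ℕ) :
    lin σ (vec 2 (ent u v)) = val σ u v := by
  rw [lin_vec]
  unfold ent val
  by_cases h : v < u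
  · simp [h, h0]
  · simp [h]

theorem vec_append (v w : List ((ℕ × ℕ) × ℕ)) : vec 2 (v ++ w) = vec 2 v + vec 2 w := by
  simp [vec]

theorem lin_row {σ : ℕ × ℕ → ZMod 2} (h0 : σ (0, 0) = 1) (q : (ℕ × ℕ) × (ℕ × ℕ)) :
    lin σ (vec 2 (row q)) = val σ q.1.1 q.2.1 + val σ q.1.2 q.2.1 + val σ q.1.1 q.2.2 +
      val σ q.1.2 q.2.2 := by
  unfold row
  rw [vec_append, vec_append, vec_append, map_add, map_add, map_add, lin_ent h0, lin_ent h0,
    lin_ent h0, lin_ent h0]
  ring

theorem adjB_iff (I : List ℕ × List (ℕ × ℕ)) (u v : {v : ℕ // v ∈ I.1}) :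
    adjB I.2 u.1 v.1 = true ↔ (graphOf I).Adj u v := by
  unfold adjB graphOf
  simp only [Bool.and_eq_true, Bool.not_eq_true', decide_eq_false_iff_not, Bool.or_eq_true,
    decide_eq_true_eq, ne_eq]
  rw [Subtype.ext_iff]

theorem diaB_iff (I : List ℕ × List (ℕ × ℕ)) (x y a b : {v : ℕ // v ∈ I.1}) :
    diaB I.2 ((x.1, y.1), (a.1, b.1)) = true ↔ (graphOf I).Adj x y ∧ (graphOf I).Adj x a ∧
      (graphOf I).Adj y a ∧ (graphOf I).Adj x b ∧ (graphOf I).Adj y b ∧ a ≠ b ∧
      ¬ (graphOf I).Adj a b := by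
  unfold diaB
  simp only [Bool.and_eq_true, Bool.not_eq_true', adjB_iff, ← Bool.not_eq_true,
    decide_eq_true_eq, ne_eq]
  rw [Subtype.ext_iff]

theorem mem_prod {α β : Type} {l : List α} {l' : List β} {x : α} {y : β} :
    (x, y) ∈ l ×ˢ l' ↔ x ∈ l ∧ y ∈ l' := List.pair_mem_product

theorem mem_rows (I : List ℕ × List (ℕ × ℕ)) (r : List ((ℕ × ℕ) × ℕ)) :
    r ∈ rows I ↔ ∃ x y a b : {v : ℕ // v ∈ I.1}, diaB I.2 ((x.1, y.1), (a.1, b.1)) = true ∧
      r = row ((x.1, y.1), (a.1, b.1)) := by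
  unfold rows
  simp only [List.mem_map, List.mem_filter]
  constructor
  · rintro ⟨⟨⟨x, y⟩, ⟨a, b⟩⟩, ⟨h1, h2⟩, rfl⟩
    rw [mem_prod, mem_prod, mem_prod] at h1
    exact ⟨⟨x, h1.1.1⟩, ⟨y, h1.1.2⟩, ⟨a, h1.2.1⟩, ⟨b, h1.2.2⟩, h2, rfl⟩
  · rintro ⟨x, y, a, b, h, rfl⟩
    refine ⟨((x.1, y.1), (a.1, b.1)), ⟨?_, h⟩, rfl⟩
    rw [mem_prod, mem_prod, mem_prod]
    exact ⟨⟨x.2, y.2⟩, ⟨a.2, b.2⟩⟩

theorem z11 : (1 : ZMod 2) + 1 = 0 := by decide

theorem val_anti (σ : ℕ × ℕ → ZMod 2) {u v : ℕ} (h : u ≠ v) : val σ v u = val σ u v + 1 := by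
  unfold val
  rw [min_comm v u, max_comm v u]
  rcases lt_or_gt_of_ne h with h1 | h1
  · rw [if_pos h1, if_neg (by omega), add_zero]
  · rw [if_neg (by omega), if_pos h1]
    have : (1 : ZMod 2) + 1 = 0 := by decide
    rw [add_assoc, this]

/-- Correctness of the algorithm. -/
theorem alg_iff (I : List ℕ × List (ℕ × ℕ)) : alg I = true ↔
    ∃ o : {v : ℕ // v ∈ I.1} → {v : ℕ // v ∈ I.1} → ZMod 2, Anti o ∧ Dia (graphOf I) o := by
  have : Fact (Nat.Prime 2) := ⟨Nat.prime_two⟩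
  have hspan : alg I = true ↔ vec 2 one ∉ Submodule.span (ZMod 2)
      ((fun r => vec 2 r) '' {r | r ∈ rows I}) := by
    unfold alg
    rw [Bool.not_eq_true', ← Bool.not_eq_true, ruleB_iff, feat_bits]
    have : ((fun y => vec 2 (feat y)) '' {y | y ∈ (rows I).map (fun r => bits r)}) =
        ((fun r => vec 2 r) '' {r | r ∈ rows I}) := by
      ext w
      simp only [Set.mem_image, Set.mem_ofPred_eq, List.mem_map]
      constructor
      · rintro ⟨_, ⟨r, hr, rfl⟩, rfl⟩
        exact ⟨r, hr, by rw [feat_bits]⟩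
      · rintro ⟨r, hr, rfl⟩
        exact ⟨_, ⟨r, hr, rfl⟩, by rw [feat_bits]⟩
    rw [this]
  rw [hspan]
  constructor
  · intro h
    obtain ⟨f, hf, hf'⟩ := Submodule.exists_le_ker_of_notMem h
    obtain ⟨σ, rfl⟩ : ∃ σ, f = lin σ := by
      refine ⟨fun u => f (Finsupp.single u 1), ?_⟩
      apply Finsupp.lhom_ext
      intro u c
      unfold lin
      rw [Finsupp.linearCombination_single, smul_eq_mul]
      have : Finsupp.single u c = c • Finsupp.single u (1 : ZMod 2) := by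
        rw [Finsupp.smul_single, smul_eq_mul, mul_one]
      rw [this, map_smul, smul_eq_mul]
    have h0 : σ (0, 0) = 1 := by
      rw [lin_vec] at hf
      unfold one at hf
      simp only [List.map_cons, List.map_nil, List.sum_cons, List.sum_nil, Nat.cast_one, one_mul,
        add_zero] at hf
      rcases zmod2_cases (σ (0, 0)) with h1 | h1
      · exact absurd h1 hf
      · exact h1
    refine ⟨fun u v => val σ u.1 v.1, ?_, ?_⟩
    · intro u v huv
      exact val_anti σ (fun h => huv (Subtype.ext h))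
    · intro x y a b hxy hxa hya hxb hyb hab hnadj
      have hmem : row ((x.1, y.1), (a.1, b.1)) ∈ rows I :=
        (mem_rows I _).2 ⟨x, y, a, b, (diaB_iff I x y a b).2
          ⟨hxy, hxa, hya, hxb, hyb, hab, hnadj⟩, rfl⟩
      have := hf' (Submodule.subset_span ⟨_, hmem, rfl⟩)
      rw [LinearMap.mem_ker, lin_row h0] at this
      exact this
  · rintro ⟨o, ho, hd⟩ hmem
    classical
    -- the assignment
    obtain ⟨σ, hσ0, hσ⟩ : ∃ σ : ℕ × ℕ → ZMod 2, σ (0, 0) = 1 ∧
        ∀ u v : {v : ℕ // v ∈ I.1}, u.1 < v.1 → σ (u.1, v.1) = o u v := by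
      refine ⟨fun q => if h : q.1 ∈ I.1 ∧ q.2 ∈ I.1 ∧ q.1 < q.2 then o ⟨q.1, h.1⟩ ⟨q.2, h.2.1⟩
        else 1, ?_, ?_⟩
      · dsimp only
        rw [dif_neg (fun h => absurd h.2.2 (lt_irrefl _))]
      · intro u v huv
        dsimp only
        rw [dif_pos ⟨u.2, v.2, huv⟩]
    have hval : ∀ u v : {v : ℕ // v ∈ I.1}, u ≠ v → val σ u.1 v.1 = o u v := by
      intro u v huv
      have hne : u.1 ≠ v.1 := fun h => huv (Subtype.ext h)
      unfold val
      rcases lt_or_gt_of_ne hne with h1 | h1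
      · rw [min_eq_left h1.le, max_eq_right h1.le, hσ u v h1, if_neg (by omega), add_zero]
      · rw [min_eq_right h1.le, max_eq_left h1.le, hσ v u h1, if_pos h1, ho u v huv, add_assoc]
        rw [z11, add_zero]
    have hle : Submodule.span (ZMod 2) ((fun r => vec 2 r) '' {r | r ∈ rows I}) ≤
        LinearMap.ker (lin σ) := by
      rw [Submodule.span_le]
      rintro _ ⟨r, hr, rfl⟩
      obtain ⟨x, y, a, b, hq, rfl⟩ := (mem_rows I r).1 hr
      obtain ⟨hxy, hxa, hya, hxb, hyb, hab, hnadj⟩ := (diaB_iff I x y a b).1 hq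
      rw [SetLike.mem_coe, LinearMap.mem_ker]
      dsimp only
      rw [lin_row hσ0]
      dsimp only
      rw [hval x a hxa.ne, hval y a hya.ne, hval x b hxb.ne, hval y b hyb.ne]
      exact hd x y a b hxy hxa hya hxb hyb hab hnadj
    have h1 := hle hmem
    rw [LinearMap.mem_ker, lin_vec] at h1
    unfold one at h1
    simp only [List.map_cons, List.map_nil, List.sum_cons, List.sum_nil, Nat.cast_one, one_mul,
      add_zero, hσ0] at h1
    exact one_ne_zero h1

/-- The algorithm decides semi-transitivity of chordal graphs. -/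
theorem alg_correct {I : List ℕ × List (ℕ × ℕ)} (hI : IsChordal (graphOf I)) :
    alg I = true ↔ SemiTransitive (graphOf I) := by
  have : Finite {v : ℕ // v ∈ I.1} := (List.finite_toSet I.1).to_subtype
  let _ : Fintype {v : ℕ // v ∈ I.1} := Fintype.ofFinite _
  rw [alg_iff, semiTransitive_iff hI]

theorem main : ∃ A : List Bool → List Bool, PolyTime A ∧ ∀ I : List ℕ × List (ℕ × ℕ),
    IsChordal (graphOf I) → (SemiTransitive (graphOf I) → A (bits I) = [true]) ∧
      (¬ SemiTransitive (graphOf I) → A (bits I) = [false]) := by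
  refine ⟨fun x => [(unbits (List ℕ × List (ℕ × ℕ)) x).elim false (fun I => alg I)],
    polyTime_of_poly (Poly.optElim (h := fun _ I => alg I) poly_unbits (Poly.const false)
      (poly_alg.comp (Poly.snd Poly.id))), fun I hI => ?_⟩
  dsimp only
  rw [unbits_bits, Option.elim_some, ← alg_correct hI]
  exact ⟨fun h => by rw [h], fun h => by rw [Bool.not_eq_true] at h; rw [h]⟩

end Pool.Agent.NPC.H255STC
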