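import Pool.Agent.H255R3.STC.Stage

/-!
# Semi-transitive orientations of chordal graphs and the linear system
-/

set_option autoImplicit false
set_option linter.unusedSectionVars false

open Classical

namespace Pool.Agent.H255R3.STC

/-- A semi-transitive orientation. -/
structure IsSTO {V : Type} (G : SimpleGraph V) (D : V → V → Prop) : Prop where
  adj : ∀ u v, G.Adj u v ↔ D u v ∨ D v u
  asymm : ∀ u v, D u v → ¬ D v u
  acyclic : ∀ v, ¬ Relation.TransGen D v v
  noShortcut : ∀ (k : ℕ) (v : ℕ → V), 3 ≤ k → (∀ i < k, D (v i) (v (i + 1))) →
    D (v 0) (v k) → ∀ i j, i < j → j ≤ k → D (v i) (v j)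

/-- A graph is semi-transitive if it has a semi-transitive orientation. -/
def SemiTransitive {V : Type} (G : SimpleGraph V) : Prop := ∃ D : V → V → Prop, IsSTO G D

variable {V : Type} [Fintype V] {G : SimpleGraph V} {o : V → V → ZMod 2} {blk : V → ℕ}

/-- All conditions hold for the constructed orientation. -/
theorem stage_dia (hb : Blocks G Finset.univ blk) (hdia : Dia G o) {o' : V → V → ZMod 2}
    {j : ℕ} (hj : ∀ a, blk a < j) (h : Stage G blk o j o') : Dia G o' := by
  have U : ∀ x : V, x ∈ (Finset.univ : Finset V) := Finset.mem_univ
  have main : ∀ n : ℕ, ∀ x y c d, blk c + blk d = n → blk c ≤ blk d → G.Adj x y → G.Adj x c →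
      G.Adj y c → G.Adj x d → G.Adj y d → c ≠ d → ¬ G.Adj c d → cr o' x y c d = 0 := by
    intro n
    induction n using Nat.strong_induction_on with
    | _ n ih =>
      intro x y c d hn hcd hxy hxc hyc hxd hyd hne hnadj
      have hlt : ∀ x, G.Adj x c → G.Adj x d → blk x < blk d := by
        intro x hxc hxd
        by_contra hcon
        push Not at hcon
        rcases Nat.lt_or_eq_of_le hcon with h1 | h1
        · exact hnadj (hb.clique x (U _) c (U _) d (U _) (by omega) h1 hxc.symm hxd.symm hne)
        · rcases Nat.lt_or_eq_of_le hcd with h2 | h2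
          · exact hnadj (hb.same_nbr x (U _) d (U _) h1.symm c (U _) (by omega) hxc.symm)
          · exact hnadj (hb.same_adj c (U _) d (U _) h2 hne)
      have hcd' : blk c < blk d := by
        rcases Nat.lt_or_eq_of_le hcd with h2 | h2
        · exact h2
        · exact absurd (hb.same_adj c (U _) d (U _) h2 hne) hnadj
      have hxl := hlt x hxc hxd
      have hyl := hlt y hyc hyd
      obtain ⟨w, hw1, hw2, hw3, hw4⟩ := h.wit d (hj d) ⟨x, hxl⟩
      have ex := hw4 d rfl x hxl hxd
      have ey := hw4 d rfl y hyl hyd
      have hxw := hw3 x hxl hxd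
      have hyw := hw3 y hyl hyd
      have e1 : cr o' x y c d = cr o' x y c w := by
        unfold cr
        rw [ex, ey]
      rw [e1]
      by_cases hwc : w = c
      · rw [hwc, cr_self_right]
      by_cases hwa : G.Adj w c
      · -- a common bag
        obtain ⟨q, hq, hmax⟩ := Set.exists_max_image ({x, y, c, w} : Set V) blk (Set.toFinite _)
          ⟨x, Or.inl rfl⟩
        have hcl : ∀ p ∈ ({x, y, c, w} : Set V), ∀ q ∈ ({x, y, c, w} : Set V), p ≠ q →
            G.Adj p q := by
          intro p hp q hq hpq
          rcases hp with rfl | rfl | rfl | rfl <;> rcases hq with rfl | rfl | rfl | rfl <;>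
            first
            | exact absurd rfl hpq
            | assumption
            | (apply SimpleGraph.Adj.symm; assumption)
        have hsub : ∀ p ∈ ({x, y, c, w} : Set V), p ∈ bag G blk q := by
          intro p hp
          by_cases hpq : p = q
          · exact Or.inl hpq
          · exact Or.inr ⟨hcl p hp q hq hpq, hmax p hp⟩
        have hxm := hsub x (by simp)
        have hym := hsub y (by simp)
        have hcm := hsub c (by simp)
        have hwm := hsub w (by simp)
        have hqd : blk q < blk d := by
          rcases hq with rfl | rfl | rfl | rfl <;> assumption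
        have hbl : ∀ p ∈ bag G blk q, blk p < blk d := by
          rintro p (hp | hp)
          · rw [hp]; exact hqd
          · exact lt_of_le_of_lt hp.2 hqd
        obtain ⟨r, hr, hro⟩ := h.good q (hj q)
        have hsp : Split o (bag G blk q) {v | blk v < blk d ∧ G.Adj v d} := by
          intro p hp p' hp' u hu u' hu' hpR hpR' huR huR'
          by_cases hpp : p = p'
          · rw [hpp, cr_self_left]
          have key : ∀ u ∈ bag G blk q, u ∉ {v | blk v < blk d ∧ G.Adj v d} →
              cr o p p' u d = 0 := by
            intro u hu huR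
            have hud : ¬ G.Adj u d := fun hh => huR ⟨hbl u hu, hh⟩
            apply hdia p p' u d (bag_clique hb hp hp' hpp)
            · exact bag_clique hb hp hu (by rintro rfl; exact huR hpR)
            · exact bag_clique hb hp' hu (by rintro rfl; exact huR hpR')
            · exact hpR.2
            · exact hpR'.2
            · rintro rfl
              exact absurd (hbl u hu) (lt_irrefl _)
            · exact hud
          rw [cr_add o p p' u d u', key u hu huR, cr_swap_right, key u' hu' huR', add_zero]
        have h5 := hr.split _ hsp x hxm y hym c hcm w hwm ⟨hxl, hxd⟩ ⟨hyl, hyd⟩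
          (fun hh => hnadj hh.2) (fun hh => hw2 hh.2)
        unfold cr at h5 ⊢
        rw [hro x hxm c hcm, hro y hym c hcm, hro x hxm w hwm, hro y hym w hwm]
        exact h5
      · -- induction
        rcases Nat.le_total (blk c) (blk w) with h6 | h6
        · exact ih (blk c + blk w) (by omega) x y c w rfl h6 hxy hxc hyc hxw hyw (Ne.symm hwc)
            (fun hh => hwa hh.symm)
        · rw [cr_swap_right]
          exact ih (blk w + blk c) (by omega) x y w c rfl h6 hxy hxw hyw hxc hyc hwc hwa
  intro x y a b hxy hxa hya hxb hyb hne hnadj
  rcases Nat.le_total (blk a) (blk b) with h6 | h6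
  · exact main _ x y a b rfl h6 hxy hxa hya hxb hyb hne hnadj
  · rw [cr_swap_right]
    exact main _ x y b a rfl h6 hxy hxb hyb hxa hya hne.symm (fun hh => hnadj hh.symm)

/-- The orientation of a function. -/
def dir (G : SimpleGraph V) (o : V → V → ZMod 2) (x y : V) : Prop := G.Adj x y ∧ o x y = 1

theorem zmod2_cases (z : ZMod 2) : z = 0 ∨ z = 1 := by
  revert z
  decide

theorem stage_anti {o' : V → V → ZMod 2}
    {j : ℕ} (hj : ∀ a, blk a < j) (h : Stage G blk o j o') {x y : V} (hxy : G.Adj x y) :
    o' y x = o' x y + 1 := by
  rcases Nat.le_total (blk x) (blk y) with h6 | h6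
  · obtain ⟨r, hr, hro⟩ := h.good y (hj y)
    have hx : x ∈ bag G blk y := Or.inr ⟨hxy, h6⟩
    have hy : y ∈ bag G blk y := Or.inl rfl
    rw [hro y hy x hx, hro x hx y hy]
    exact oR_anti hr.inj hx hy hxy.ne
  · obtain ⟨r, hr, hro⟩ := h.good x (hj x)
    have hy : y ∈ bag G blk x := Or.inr ⟨hxy.symm, h6⟩
    have hx : x ∈ bag G blk x := Or.inl rfl
    rw [hro y hy x hx, hro x hx y hy]
    exact oR_anti hr.inj hx hy hxy.ne

theorem stage_acyclic (hb : Blocks G Finset.univ blk) {o' : V → V → ZMod 2}
    {j : ℕ} (hj : ∀ a, blk a < j) (h : Stage G blk o j o') (v : V) :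
    ¬ Relation.TransGen (dir G o') v v := by
  have U : ∀ x : V, x ∈ (Finset.univ : Finset V) := Finset.mem_univ
  have anti : ∀ x y, G.Adj x y → o' y x = o' x y + 1 := fun x y hxy => stage_anti hj h hxy
  have main : ∀ n : ℕ, ∀ v, ¬ Relation.TransGen
      (fun x y => dir G o' x y ∧ blk x < n ∧ blk y < n) v v := by
    intro n
    induction n with
    | zero =>
      intro v hv
      cases hv with
      | single h => exact absurd h.2.1 (Nat.not_lt_zero _)
      | tail _ h => exact absurd h.2.1 (Nat.not_lt_zero _)
    | succ n ih =>
      intro v hv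
      by_cases hne : ∃ a0, blk a0 = n
      swap
      · refine ih v (Relation.TransGen.mono ?_ _ _ hv)
        rintro x y ⟨h1, h2, h3⟩
        have e1 : blk x ≠ n := fun hh => hne ⟨x, hh⟩
        have e2 : blk y ≠ n := fun hh => hne ⟨y, hh⟩
        exact ⟨h1, by omega, by omega⟩
      obtain ⟨a0, ha0⟩ := hne
      obtain ⟨r, hr, hro⟩ := h.good a0 (hj a0)
      have hmem : ∀ x, blk x = n → x ∈ bag G blk a0 := by
        intro x hx
        by_cases hxa : x = a0
        · exact Or.inl hxa
        · exact Or.inr ⟨hb.same_adj x (U _) a0 (U _) (hx.trans ha0.symm) hxa, by omega⟩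
      have hrank : ∀ x y, blk x = n → blk y = n → dir G o' x y → r x < r y := by
        intro x y hx hy hxy
        have := hxy.2
        rw [hro x (hmem x hx) y (hmem y hy)] at this
        unfold oR at this
        by_contra hcon
        rw [if_neg hcon] at this
        exact absurd this (by decide)
      by_cases hz : ∃ z, blk z < n
      · obtain ⟨z, hz⟩ := hz
        obtain ⟨w, hw1, hw2, hw3, hw4⟩ := h.wit a0 (hj a0) ⟨z, by omega⟩
        have hred : ∀ x y, (dir G o' x y ∧ blk x < n + 1 ∧ blk y < n + 1) →
            (dir G o' (if blk x = n then w else x) (if blk y = n then w else y) ∧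
              blk (if blk x = n then w else x) < n ∧ blk (if blk y = n then w else y) < n) ∨
            (blk x = n ∧ blk y = n ∧ r x < r y) := by
          rintro x y ⟨h1, h2, h3⟩
          have hwn : blk w < n := by omega
          by_cases c1 : blk x = n <;> by_cases c2 : blk y = n
          · exact Or.inr ⟨c1, c2, hrank x y c1 c2 h1⟩
          · left
            rw [if_pos c1, if_neg c2]
            have hyn : blk y < n := by omega
            have e1 := hb.same_nbr x (U _) a0 (U _) (by omega) y (U _) (by omega) h1.1.symm
            have e2 := hw3 y (by omega) e1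
            have e3 := hw4 x (by omega) y (by omega) e1
            refine ⟨⟨e2.symm, ?_⟩, hwn, hyn⟩
            rw [anti y w e2, ← e3, ← anti y x h1.1.symm]
            exact h1.2
          · left
            rw [if_neg c1, if_pos c2]
            have hxn : blk x < n := by omega
            have e1 := hb.same_nbr y (U _) a0 (U _) (by omega) x (U _) (by omega) h1.1
            have e2 := hw3 x (by omega) e1
            have e3 := hw4 y (by omega) x (by omega) e1
            refine ⟨⟨e2, ?_⟩, hxn, hwn⟩
            rw [← e3]
            exact h1.2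
          · left
            rw [if_neg c1, if_neg c2]
            exact ⟨h1, by omega, by omega⟩
        have key : ∀ x y, Relation.TransGen
            (fun x y => dir G o' x y ∧ blk x < n + 1 ∧ blk y < n + 1) x y →
            (Relation.TransGen (fun x y => dir G o' x y ∧ blk x < n ∧ blk y < n)
              (if blk x = n then w else x) (if blk y = n then w else y)) ∨
            (blk x = n ∧ blk y = n ∧ r x < r y) := by
          intro x y hxy
          induction hxy with
          | single h1 =>
            rcases hred _ _ h1 with h2 | h2
            · exact Or.inl (Relation.TransGen.single h2)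
            · exact Or.inr h2
          | @tail y t _ h1 ih2 =>
            rcases ih2 with h3 | h3
            · rcases hred _ _ h1 with h2 | h2
              · exact Or.inl (Relation.TransGen.tail h3 h2)
              · left
                rw [if_pos h2.1] at h3
                rw [if_pos h2.2.1]
                exact h3
            · rcases hred _ _ h1 with h2 | h2
              · left
                rw [if_pos h3.2.1] at h2
                rw [if_pos h3.1]
                exact Relation.TransGen.single h2
              · exact Or.inr ⟨h3.1, h2.2.1, lt_trans h3.2.2 h2.2.2⟩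
        rcases key v v hv with h7 | h7
        · exact ih _ h7
        · exact absurd h7.2.2 (lt_irrefl _)
      · have hred : ∀ x y, Relation.TransGen
            (fun x y => dir G o' x y ∧ blk x < n + 1 ∧ blk y < n + 1) x y → r x < r y := by
          have hone : ∀ x y, (dir G o' x y ∧ blk x < n + 1 ∧ blk y < n + 1) → r x < r y := by
            rintro x y ⟨h1, h2, h3⟩
            have e1 : ¬ blk x < n := fun hh => hz ⟨x, hh⟩
            have e2 : ¬ blk y < n := fun hh => hz ⟨y, hh⟩
            exact hrank x y (by omega) (by omega) h1
          intro x y hxy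
          induction hxy with
          | single h1 => exact hone _ _ h1
          | tail _ h1 ih2 => exact lt_trans ih2 (hone _ _ h1)
        exact absurd (hred v v hv) (lt_irrefl _)
  intro hv
  exact main j v (Relation.TransGen.mono (fun x y h1 => ⟨h1, hj x, hj y⟩) _ _ hv)

/-- An acyclic orientation with the conditions on diamonds has no shortcuts. -/
theorem no_shortcut (hb : Blocks G Finset.univ blk) (hanti : ∀ x y, G.Adj x y → o y x = o x y + 1)
    (hdia : Dia G o) (hac : ∀ v, ¬ Relation.TransGen (dir G o) v v) :
    ∀ (k : ℕ) (v : ℕ → V), (∀ i < k, dir G o (v i) (v (i + 1))) → dir G o (v 0) (v k) →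
      ∀ i j, i < j → j ≤ k → dir G o (v i) (v j) := by
  intro k
  induction k with
  | zero => intro v _ _ i j h1 h2; omega
  | succ k ih =>
    intro v hch hend
    have hpath : ∀ j, j ≤ k + 1 → ∀ i, i < j → Relation.TransGen (dir G o) (v i) (v j) := by
      intro j
      induction j with
      | zero => intro _ i hi; omega
      | succ j ihj =>
        intro hj i hi
        rcases Nat.lt_succ_iff_lt_or_eq.mp hi with h1 | h1
        · exact Relation.TransGen.tail (ihj (by omega) i h1) (hch j (by omega))
        · subst h1
          exact Relation.TransGen.single (hch i (by omega))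
    have hne : ∀ i j, i < j → j ≤ k + 1 → v i ≠ v j := by
      intro i j h1 h2 h3
      have := hpath j h2 i h1
      rw [h3] at this
      exact hac _ this
    -- adjacent vertices of the path are directed along the path
    have hdir : ∀ i j, i < j → j ≤ k + 1 → G.Adj (v i) (v j) → dir G o (v i) (v j) := by
      intro i j h1 h2 h3
      refine ⟨h3, ?_⟩
      rcases zmod2_cases (o (v i) (v j)) with h4 | h4
      · exfalso
        have h5 : dir G o (v j) (v i) := ⟨h3.symm, by rw [hanti _ _ h3, h4]; decide⟩
        exact hac _ (Relation.TransGen.tail (hpath j h2 i h1) h5)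
      · exact h4
    by_cases hk0 : k = 0
    · subst hk0
      intro i j h1 h2
      have : i = 0 := by omega
      have : j = 1 := by omega
      subst i j
      exact hend
    by_cases hk1 : k = 1
    · subst hk1
      intro i j h1 h2
      have hj : j = 1 ∨ j = 2 := by omega
      rcases hj with rfl | rfl
      · have : i = 0 := by omega
        subst i
        exact hch 0 (by omega)
      · have hi : i = 0 ∨ i = 1 := by omega
        rcases hi with rfl | rfl
        · exact hend
        · exact hch 1 (by omega)
    have hzero : ∀ a b, dir G o a b → o b a = 0 := by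
      intro a b hab
      rw [hanti _ _ hab.1, hab.2]
      decide
    -- the diamond argument
    have hdd : ∀ x y a b, G.Adj x y → G.Adj x a → G.Adj y a → G.Adj x b → G.Adj y b → a ≠ b →
        o x a + o y a + o x b + o y b ≠ 0 → G.Adj a b := by
      intro x y a b h1 h2 h3 h4 h5 h6 h7
      by_contra h8
      exact h7 (hdia x y a b h1 h2 h3 h4 h5 h6 h8)
    obtain ⟨m, hm, hmax⟩ := Finset.exists_max_image (Finset.range (k + 2)) (fun i => blk (v i))
      ⟨0, by simp⟩
    rw [Finset.mem_range] at hm
    have hmx : ∀ i, i ≤ k + 1 → blk (v i) ≤ blk (v m) := fun i hi =>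
      hmax i (Finset.mem_range.mpr (by omega))
    have hclq : ∀ i j, i ≤ k + 1 → j ≤ k + 1 → G.Adj (v i) (v m) → G.Adj (v j) (v m) →
        v i ≠ v j → G.Adj (v i) (v j) := fun i j hi hj h1 h2 h3 =>
      bag_clique hb (a := v m) (Or.inr ⟨h1, hmx i hi⟩) (Or.inr ⟨h2, hmx j hj⟩) h3
    by_cases hm0 : m = 0
    · subst hm0
      -- remove the first vertex
      have e1 : G.Adj (v 1) (v (k + 1)) := hclq 1 (k + 1) (by omega) (by omega)
        (hch 0 (by omega)).1.symm hend.1.symm (hne 1 (k + 1) (by omega) (by omega))
      have e2 := hdir 1 (k + 1) (by omega) le_rfl e1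
      have e3 := ih (fun i => v (i + 1)) (fun i hi => hch (i + 1) (by omega)) e2
      have e4 : ∀ i j, 0 < i → i < j → j ≤ k + 1 → dir G o (v i) (v j) := by
        intro i j h1 h2 h3
        have := e3 (i - 1) (j - 1) (by omega) (by omega)
        rwa [show i - 1 + 1 = i by omega, show j - 1 + 1 = j by omega] at this
      intro i j h1 h2
      by_cases hi : i = 0
      · subst hi
        by_cases hj1 : j = 1
        · subst hj1
          exact hch 0 (by omega)
        by_cases hjk : j = k + 1
        · subst hjk
          exact hend
        apply hdir 0 j h1 h2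
        have f1 := e4 1 j (by omega) (by omega) h2
        have f2 := e4 j (k + 1) (by omega) (by omega) le_rfl
        refine hdd (v 1) (v (k + 1)) (v 0) (v j) e1 (hch 0 (by omega)).1.symm hend.1.symm f1.1
          f2.1.symm (hne 0 j h1 h2) ?_
        rw [hzero _ _ (hch 0 (by omega)), hzero _ _ hend, f1.2, hzero _ _ f2]
        decide
      · exact e4 i j (by omega) h1 h2
    by_cases hmk : m = k + 1
    · subst hmk
      -- remove the last vertex
      have e1 : G.Adj (v 0) (v k) := hclq 0 k (by omega) (by omega)
        hend.1 (hch k (by omega)).1 (hne 0 k (by omega) (by omega))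
      have e2 := hdir 0 k (by omega) (by omega) e1
      have e4 := ih v (fun i hi => hch i (by omega)) e2
      intro i j h1 h2
      by_cases hj : j = k + 1
      · subst hj
        by_cases hi0 : i = 0
        · subst hi0
          exact hend
        by_cases hik : i = k
        · subst hik
          exact hch i (by omega)
        apply hdir i (k + 1) h1 h2
        have f1 := e4 0 i (by omega) (by omega)
        have f2 := e4 i k (by omega) le_rfl
        refine hdd (v 0) (v k) (v i) (v (k + 1)) e1 f1.1 f2.1.symm hend.1 (hch k (by omega)).1
          (hne i (k + 1) h1 h2) ?_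
        rw [f1.2, hzero _ _ f2, hend.2, (hch k (by omega)).2]
        decide
      · exact e4 i j h1 (by omega)
    · -- remove an interior vertex
      have g1 := hch (m - 1) (by omega)
      rw [show m - 1 + 1 = m by omega] at g1
      have g2 := hch m (by omega)
      have e1 : G.Adj (v (m - 1)) (v (m + 1)) := hclq (m - 1) (m + 1) (by omega) (by omega)
        g1.1 g2.1.symm (hne (m - 1) (m + 1) (by omega) (by omega))
      have e2 := hdir (m - 1) (m + 1) (by omega) (by omega) e1
      have e3 := ih (fun i => if i < m then v i else v (i + 1)) (by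
        intro i hi
        by_cases c1 : i + 1 < m
        · rw [if_pos (by omega), if_pos c1]
          exact hch i (by omega)
        · by_cases c2 : i + 1 = m
          · rw [if_pos (by omega), if_neg c1]
            have : i = m - 1 := by omega
            subst this
            rw [show m - 1 + 1 + 1 = m + 1 by omega]
            exact e2
          · rw [if_neg (by omega), if_neg c1]
            exact hch (i + 1) (by omega)) (by
        rw [if_pos (by omega), if_neg (by omega)]
        exact hend)
      have e4 : ∀ i j, i ≠ m → j ≠ m → i < j → j ≤ k + 1 → dir G o (v i) (v j) := by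
        intro i j h1 h2 h3 h4
        have := e3 (if i < m then i else i - 1) (if j < m then j else j - 1)
          (by split_ifs <;> omega) (by split_ifs <;> omega)
        have q1 : (if (if i < m then i else i - 1) < m then v (if i < m then i else i - 1) else
            v ((if i < m then i else i - 1) + 1)) = v i := by
          by_cases c : i < m
          · simp only [c, if_true]
          · rw [if_neg c, if_neg (by omega), show i - 1 + 1 = i by omega]
        have q2 : (if (if j < m then j else j - 1) < m then v (if j < m then j else j - 1) else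
            v ((if j < m then j else j - 1) + 1)) = v j := by
          by_cases c : j < m
          · simp only [c, if_true]
          · rw [if_neg c, if_neg (by omega), show j - 1 + 1 = j by omega]
        rw [q1, q2] at this
        exact this
      intro i j h1 h2
      by_cases hi : i = m
      · subst hi
        by_cases hj1 : j = i + 1
        · subst hj1
          exact g2
        apply hdir i j h1 h2
        have f1 := e4 (i - 1) j (by omega) (by omega) (by omega) h2
        have f2 := e4 (i + 1) j (by omega) (by omega) (by omega) h2
        refine hdd (v (i - 1)) (v (i + 1)) (v i) (v j) e1 g1.1 g2.1.symm f1.1 f2.1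
          (hne i j h1 h2) ?_
        rw [g1.2, hzero _ _ g2, f1.2, f2.2]
        decide
      · by_cases hj : j = m
        · subst hj
          by_cases hi1 : i = j - 1
          · subst hi1
            exact g1
          apply hdir i j h1 h2
          have f1 := e4 i (j - 1) (by omega) (by omega) (by omega) (by omega)
          have f2 := e4 i (j + 1) (by omega) (by omega) (by omega) (by omega)
          refine hdd (v (j - 1)) (v (j + 1)) (v i) (v j) e1 f1.1.symm f2.1.symm g1.1 g2.1.symm
            (hne i j h1 h2) ?_
          rw [hzero _ _ f1, hzero _ _ f2, g1.2, hzero _ _ g2]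
          decide
        · exact e4 i j hi hj h1 h2

/-- Sufficiency of the linear system. -/
theorem semiTransitive_of_dia (hG : IsChordal G) (ho : Anti o) (hdia : Dia G o) :
    SemiTransitive G := by
  obtain ⟨blk, hb⟩ := exists_blocks hG
  obtain ⟨j, hj'⟩ := exists_bound (Set.toFinite (Set.univ : Set V)) blk
  have hj : ∀ a, blk a < j := fun a => hj' a (Set.mem_univ a)
  obtain ⟨o', h⟩ := exists_stage hb ho hdia j
  have hanti : ∀ x y, G.Adj x y → o' y x = o' x y + 1 := fun x y hxy => stage_anti hj h hxy
  have hd := stage_dia hb hdia hj h
  have hac := stage_acyclic hb hj h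
  refine ⟨dir G o', ?_, ?_, hac, fun k v _ => no_shortcut hb hanti hd hac k v⟩
  · intro u v
    constructor
    · intro huv
      rcases zmod2_cases (o' u v) with h4 | h4
      · exact Or.inr ⟨huv.symm, by rw [hanti _ _ huv, h4]; decide⟩
      · exact Or.inl ⟨huv, h4⟩
    · rintro (huv | huv)
      · exact huv.1
      · exact huv.1.symm
  · intro u v h1 h2
    have := hanti _ _ h1.1
    rw [h1.2, h2.2] at this
    exact absurd this (by decide)

/-- Necessity of the linear system. -/
theorem dia_of_isSTO {D : V → V → Prop} (h : IsSTO G D) :
    Dia G (fun x y => if D x y then 1 else 0) := by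
  have key : ∀ x y a b, D x y → G.Adj x a → G.Adj y a → G.Adj x b → G.Adj y b → a ≠ b →
      ¬ G.Adj a b → cr (fun x y => if D x y then (1 : ZMod 2) else 0) x y a b = 0 := by
    have cyc : ∀ x y a, D x y → D y a → D a x → False := fun x y a h1 h2 h3 =>
      h.acyclic x (((Relation.TransGen.single h1).tail h2).tail h3)
    -- no path with an arc from the first to the last vertex
    have sc : ∀ a b c d, D a b → D b c → D c d → D a d → D a c ∧ D b d := by
      intro a b c d h1 h2 h3 h4
      have := h.noShortcut 3 (fun i => if i = 0 then a else if i = 1 then b else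
        if i = 2 then c else d) le_rfl (by
          intro i hi
          interval_cases i
          · exact h1
          · exact h2
          · exact h3) h4
      exact ⟨this 0 2 (by norm_num) (by norm_num), this 1 3 (by norm_num) (by norm_num)⟩
    intro x y a b hxy hxa hya hxb hyb hab hnadj
    have ncon : ¬ D a b ∧ ¬ D b a := by
      rw [h.adj] at hnadj
      push Not at hnadj
      exact hnadj
    have typ : ∀ c, G.Adj x c → G.Adj y c → (D x c ∧ ¬ D c x ∧ D y c ∧ ¬ D c y) ∨
        (¬ D x c ∧ D c x ∧ ¬ D y c ∧ D c y) ∨ (D x c ∧ ¬ D c x ∧ ¬ D y c ∧ D c y) := by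
      intro c hxc hyc
      rcases (h.adj x c).1 hxc with h1 | h1
      · rcases (h.adj y c).1 hyc with h2 | h2
        · exact Or.inl ⟨h1, h.asymm _ _ h1, h2, h.asymm _ _ h2⟩
        · exact Or.inr (Or.inr ⟨h1, h.asymm _ _ h1, h.asymm _ _ h2, h2⟩)
      · rcases (h.adj y c).1 hyc with h2 | h2
        · exact (cyc x y c hxy h2 h1).elim
        · exact Or.inr (Or.inl ⟨h.asymm _ _ h1, h1, h.asymm _ _ h2, h2⟩)
    have z4 : (1 : ZMod 2) + 1 + 1 + 1 = 0 := by decide
    have z2 : (1 : ZMod 2) + 1 + 0 + 0 = 0 := by decide
    have z2' : (0 : ZMod 2) + 0 + 1 + 1 = 0 := by decide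
    have z2'' : (1 : ZMod 2) + 0 + 1 + 0 = 0 := by decide
    unfold cr
    dsimp only
    rcases typ a hxa hya with ⟨a1, a2, a3, a4⟩ | ⟨a1, a2, a3, a4⟩ | ⟨a1, a2, a3, a4⟩ <;>
      rcases typ b hxb hyb with ⟨b1, b2, b3, b4⟩ | ⟨b1, b2, b3, b4⟩ | ⟨b1, b2, b3, b4⟩
    · rw [if_pos a1, if_pos a3, if_pos b1, if_pos b3]; exact z4
    · rw [if_pos a1, if_pos a3, if_neg b1, if_neg b3]; exact z2
    · exact (ncon.2 (sc x b y a b1 b4 a3 a1).2).elim
    · rw [if_neg a1, if_neg a3, if_pos b1, if_pos b3]; exact z2'
    · rw [if_neg a1, if_neg a3, if_neg b1, if_neg b3]; decide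
    · exact (ncon.1 (sc a x b y a2 b1 b4 a4).1).elim
    · exact (ncon.1 (sc x a y b a1 a4 b3 b1).2).elim
    · exact (ncon.2 (sc b x a y b2 a1 a4 b4).1).elim
    · rw [if_pos a1, if_neg a3, if_pos b1, if_neg b3]; exact z2''
  intro x y a b hxy hxa hya hxb hyb hab hnadj
  rcases (h.adj x y).1 hxy with h1 | h1
  · exact key x y a b h1 hxa hya hxb hyb hab hnadj
  · have := key y x a b h1 hya hxa hyb hxb hab hnadj
    have e : ∀ p q r s : ZMod 2, p + q + r + s = q + p + s + r := by
      intro p q r s
      ring
    unfold cr at this ⊢
    rw [e]
    exact this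

/-- The characterisation of semi-transitive chordal graphs. -/
theorem semiTransitive_iff (hG : IsChordal G) : SemiTransitive G ↔
    ∃ o : V → V → ZMod 2, Anti o ∧ Dia G o := by
  constructor
  · rintro ⟨D, h⟩
    obtain ⟨n, ⟨e⟩⟩ := Finite.exists_equiv_fin V
    refine ⟨fun x y => if G.Adj x y then (if D x y then 1 else 0) else
      (if e x < e y then 1 else 0), ?_, ?_⟩
    · intro x y hxy
      dsimp only
      by_cases hadj : G.Adj x y
      · rw [if_pos hadj, if_pos hadj.symm]
        rcases (h.adj x y).1 hadj with h1 | h1
        · rw [if_pos h1, if_neg (h.asymm _ _ h1)]; decide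
        · rw [if_pos h1, if_neg (h.asymm _ _ h1)]; decide
      · rw [if_neg hadj, if_neg (fun hh => hadj hh.symm)]
        have : e x ≠ e y := fun hh => hxy (e.injective hh)
        rcases lt_or_gt_of_ne this with h1 | h1
        · rw [if_pos h1, if_neg (not_lt_of_gt h1)]; decide
        · rw [if_pos h1, if_neg (not_lt_of_gt h1)]; decide
    · intro x y a b hxy hxa hya hxb hyb hab hnadj
      have := dia_of_isSTO h x y a b hxy hxa hya hxb hyb hab hnadj
      unfold cr at this ⊢
      dsimp only at this ⊢
      rw [if_pos hxa, if_pos hya, if_pos hxb, if_pos hyb]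
      exact this
  · rintro ⟨o, ho, hd⟩
    exact semiTransitive_of_dia hG ho hd

end Pool.Agent.H255R3.STC
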