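import Pool.Agent.H255R3.STC.Exist
import Pool.Agent.H255R3.STC.Chordal

/-!
# The orientation built block by block
-/

set_option autoImplicit false
set_option linter.unusedSectionVars false

open Classical

namespace Pool.Agent.H255R3.STC

variable {V : Type} [Fintype V] {G : SimpleGraph V} {o : V → V → ZMod 2} {blk : V → ℕ}

/-- The bag of a vertex. -/
def bag (G : SimpleGraph V) (blk : V → ℕ) (a : V) : Set V :=
  {u | u = a ∨ (G.Adj u a ∧ blk u ≤ blk a)}

/-- The condition on pairs of nonadjacent common neighbours of the ends of an edge. -/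
def Dia (G : SimpleGraph V) (o : V → V → ZMod 2) : Prop :=
  ∀ x y a b, G.Adj x y → G.Adj x a → G.Adj y a → G.Adj x b → G.Adj y b → a ≠ b → ¬ G.Adj a b →
    cr o x y a b = 0

/-- The invariant. -/
structure Stage (G : SimpleGraph V) (blk : V → ℕ) (o : V → V → ZMod 2) (j : ℕ)
    (o' : V → V → ZMod 2) : Prop where
  good : ∀ a, blk a < j → ∃ r, Good o (bag G blk a) r ∧
    ∀ x ∈ bag G blk a, ∀ y ∈ bag G blk a, o' x y = oR r x y
  wit : ∀ a, blk a < j → (∃ z, blk z < blk a) → ∃ w, blk w < blk a ∧ ¬ G.Adj w a ∧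
    (∀ x, blk x < blk a → G.Adj x a → G.Adj x w) ∧
    ∀ b, blk b = blk a → ∀ x, blk x < blk a → G.Adj x a → o' x b = o' x w

theorem bag_clique (hb : Blocks G Finset.univ blk) {a x y : V} (hx : x ∈ bag G blk a)
    (hy : y ∈ bag G blk a) (hxy : x ≠ y) : G.Adj x y :=
  hb.bag_clique (Finset.mem_univ a) (Finset.mem_univ x) (Finset.mem_univ y) hx hy hxy

theorem exists_stage (hb : Blocks G Finset.univ blk) (ho : Anti o) (hdia : Dia G o) :
    ∀ j, ∃ o', Stage G blk o j o' := by
  intro j
  induction j with
  | zero => exact ⟨fun _ _ => 0, ⟨fun a h => absurd h (Nat.not_lt_zero _),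
      fun a h => absurd h (Nat.not_lt_zero _)⟩⟩
  | succ j ih =>
    obtain ⟨o1, h1⟩ := ih
    have U : ∀ x : V, x ∈ (Finset.univ : Finset V) := Finset.mem_univ
    by_cases hne : ∃ a0, blk a0 = j
    swap
    · refine ⟨o1, ?_, ?_⟩
      · intro a ha
        rcases Nat.lt_succ_iff_lt_or_eq.mp ha with h | h
        · exact h1.good a h
        · exact absurd ⟨a, h⟩ hne
      · intro a ha
        rcases Nat.lt_succ_iff_lt_or_eq.mp ha with h | h
        · exact h1.wit a h
        · exact absurd ⟨a, h⟩ hne
    obtain ⟨a0, ha0⟩ := hne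
    -- the block and its neighbourhood
    obtain ⟨A, hA⟩ : ∃ A : Set V, ∀ x, x ∈ A ↔ blk x = j := ⟨{x | blk x = j}, fun x => Iff.rfl⟩
    obtain ⟨S, hS⟩ : ∃ S : Set V, ∀ x, x ∈ S ↔ (blk x < j ∧ G.Adj x a0) :=
      ⟨{x | blk x < j ∧ G.Adj x a0}, fun x => Iff.rfl⟩
    have hSadj : ∀ x ∈ S, ∀ a ∈ A, G.Adj x a := by
      intro x hx a ha
      rw [hS] at hx
      rw [hA] at ha
      exact hb.same_nbr a0 (U _) a (U _) (ha0.trans ha.symm) x (U _) (ha0.symm ▸ hx.1) hx.2
    have hSadj' : ∀ x, blk x < j → ∀ a ∈ A, G.Adj x a → x ∈ S := by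
      intro x hx a ha h
      rw [hA] at ha
      rw [hS]
      exact ⟨hx, hb.same_nbr a (U _) a0 (U _) (ha.trans ha0.symm) x (U _) (ha.symm ▸ hx) h⟩
    have hbag : ∀ a ∈ A, bag G blk a = S ∪ A := by
      intro a ha
      have ha' := (hA a).1 ha
      ext x
      constructor
      · rintro (h | ⟨h2, h3⟩)
        · subst h
          exact Or.inr ha
        · rw [ha'] at h3
          rcases Nat.lt_or_eq_of_le h3 with h4 | h4
          · exact Or.inl (hSadj' x h4 a ha h2)
          · exact Or.inr ((hA x).2 h4)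
      · rintro (h | h)
        · exact Or.inr ⟨hSadj x h a ha, by rw [ha']; exact ((hS x).1 h).1.le⟩
        · by_cases hxa : x = a
          · exact Or.inl hxa
          · have hx' := (hA x).1 h
            exact Or.inr ⟨hb.same_adj x (U _) a (U _) (hx'.trans ha'.symm) hxa, by omega⟩
    have hSA : ∀ x ∈ S, x ∉ A := by
      intro x hx hxA
      have := ((hS x).1 hx).1
      have := (hA x).1 hxA
      omega
    -- it suffices to find the new rank function
    suffices hr : ∃ r, Good o (S ∪ A) r ∧ (∀ x ∈ S, ∀ y ∈ S, o1 x y = oR r x y) ∧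
        ((∃ z, blk z < j) → ∃ w, blk w < j ∧ ¬ G.Adj w a0 ∧ (∀ x ∈ S, G.Adj x w) ∧
          ∀ b ∈ A, ∀ x ∈ S, oR r x b = o1 x w) by
      obtain ⟨r, hgood, hSS, hw⟩ := hr
      refine ⟨fun x y => if x ∈ S ∪ A ∧ y ∈ S ∪ A ∧ (x ∈ A ∨ y ∈ A) then oR r x y else o1 x y,
        ?_, ?_⟩
      · intro a ha
        rcases Nat.lt_succ_iff_lt_or_eq.mp ha with h | h
        · obtain ⟨r', hg', ho'⟩ := h1.good a h
          refine ⟨r', hg', fun x hx y hy => ?_⟩
          have hlow : ∀ x ∈ bag G blk a, x ∉ A := by
            rintro x (hx | hx) hxA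
            · subst hx
              have := (hA x).1 hxA
              omega
            · have := (hA x).1 hxA
              omega
          rw [if_neg (fun hh => hh.2.2.elim (hlow x hx) (hlow y hy))]
          exact ho' x hx y hy
        · have haA := (hA a).2 h
          rw [hbag a haA]
          refine ⟨r, hgood, fun x hx y hy => ?_⟩
          by_cases hc : x ∈ A ∨ y ∈ A
          · rw [if_pos ⟨hx, hy, hc⟩]
          · rw [if_neg (fun hh => hc hh.2.2)]
            push Not at hc
            exact hSS x (hx.resolve_right hc.1) y (hy.resolve_right hc.2)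
      · intro a ha hz
        rcases Nat.lt_succ_iff_lt_or_eq.mp ha with h | h
        · obtain ⟨w, hw1, hw2, hw3, hw4⟩ := h1.wit a h hz
          refine ⟨w, hw1, hw2, hw3, fun b hb' x hx hxa => ?_⟩
          have nA : ∀ v, blk v ≤ blk a → v ∉ A := fun v hv hvA => by
            have := (hA v).1 hvA
            omega
          rw [if_neg (fun hh => hh.2.2.elim (nA x hx.le) (nA b hb'.le)),
            if_neg (fun hh => hh.2.2.elim (nA x hx.le) (nA w hw1.le))]
          exact hw4 b hb' x hx hxa
        · have haA := (hA a).2 h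
          rw [h] at hz
          obtain ⟨w, hw1, hw2, hw3, hw4⟩ := hw hz
          have hwA : w ∉ A := fun hh => by
            have := (hA w).1 hh
            omega
          refine ⟨w, by omega, ?_, ?_, ?_⟩
          · intro hh
            exact hw2 (hb.same_nbr a (U _) a0 (U _) (h.trans ha0.symm) w (U _) (by omega) hh)
          · intro x hx hxa
            exact hw3 x (hSadj' x (by omega) a haA hxa)
          · intro b hb' x hx hxa
            have hxS := hSadj' x (by omega) a haA hxa
            have hbA : b ∈ A := (hA b).2 (by omega)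
            rw [if_pos ⟨Or.inl hxS, Or.inr hbA, Or.inr hbA⟩,
              if_neg (fun hh => hh.2.2.elim (hSA x hxS) hwA)]
            exact hw4 b hbA x hxS
    by_cases hSne : S.Nonempty
    swap
    · rw [Set.not_nonempty_iff_eq_empty] at hSne
      obtain ⟨r, hr⟩ := exists_good ho (S ∪ A)
      refine ⟨r, hr, fun x hx => ?_, ?_⟩
      · rw [hSne] at hx
        exact absurd hx (Set.notMem_empty x)
      · rintro ⟨z, hz⟩
        obtain ⟨w, _, hw1, hw2, _⟩ := hb.wit a0 (U _) z (U _) (by omega)
        refine ⟨w, by omega, hw2, fun x hx => ?_, fun b _ x hx => ?_⟩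
        · rw [hSne] at hx
          exact absurd hx (Set.notMem_empty x)
        · rw [hSne] at hx
          exact absurd hx (Set.notMem_empty x)
    · obtain ⟨s0, hs0⟩ := hSne
      have hs0' := (hS s0).1 hs0
      obtain ⟨w, _, hw1, hw2, hw3⟩ := hb.wit a0 (U _) s0 (U _) (by omega)
      rw [ha0] at hw1 hw3
      have hwx : ∀ x ∈ S, G.Adj x w := fun x hx =>
        hw3 x (U _) ((hS x).1 hx).1 ((hS x).1 hx).2
      have hwS : w ∉ S := fun h => hw2 ((hS w).1 h).2
      have hSclique : ∀ x ∈ S, ∀ y ∈ S, x ≠ y → G.Adj x y := by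
        intro x hx y hy hxy
        have hx' := (hS x).1 hx
        have hy' := (hS y).1 hy
        exact hb.clique a0 (U _) x (U _) y (U _) (by omega) (by omega) hx'.2 hy'.2 hxy
      -- the last vertex of `S ∪ {w}`
      obtain ⟨p0, hp0, hmax⟩ := Set.exists_max_image (S ∪ {w}) blk (Set.toFinite _)
        ⟨w, Or.inr rfl⟩
      have hcl : ∀ x ∈ S ∪ {w}, ∀ y ∈ S ∪ {w}, x ≠ y → G.Adj x y := by
        intro x hx y hy hxy
        rcases hx with hx | hx <;> rcases hy with hy | hy
        · exact hSclique x hx y hy hxy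
        · rw [Set.mem_singleton_iff] at hy
          subst hy
          exact hwx x hx
        · rw [Set.mem_singleton_iff] at hx
          subst hx
          exact (hwx y hy).symm
        · rw [Set.mem_singleton_iff] at hx hy
          exact absurd (hx.trans hy.symm) hxy
      have hsub : ∀ x ∈ S ∪ {w}, x ∈ bag G blk p0 := by
        intro x hx
        by_cases hxp : x = p0
        · exact Or.inl hxp
        · exact Or.inr ⟨hcl x hx p0 hp0 hxp, hmax x hx⟩
      have hp0j : blk p0 < j := by
        rcases hp0 with h | h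
        · exact ((hS p0).1 h).1
        · rw [Set.mem_singleton_iff] at h
          rw [h]; exact hw1
      obtain ⟨r1, hg1, hr1⟩ := h1.good p0 hp0j
      obtain ⟨r2', hg2'⟩ := exists_good ho (A ∪ {s0})
      obtain ⟨r2, hg2, hmin⟩ := hg2'.rotate (Set.toFinite _) (s := s0) (Or.inr rfl)
      obtain ⟨N, hN⟩ := exists_bound (Set.toFinite A) r2
      have hNN : 0 < N := by have := hN a0 ((hA a0).2 ha0); omega
      have hblt : ∀ u ∈ bag G blk p0, blk u < j := by
        rintro u (h | h)
        · rw [h]; exact hp0j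
        · exact lt_of_le_of_lt h.2 hp0j
      have hglue := good_glue (P := bag G blk p0) (S := S) (A := A) (c := w) (s0 := s0)
        (r1 := r1) (r2 := r2) (N := N) ho (fun x hx => hsub x (Or.inl hx)) (hsub w (Or.inr rfl))
        hwS hSA ⟨a0, (hA a0).2 ha0⟩ hs0
        (by
          intro x hx y hy u hu huS a ha
          by_cases hxy : x = y
          · rw [hxy, cr_self_left]
          · apply hdia x y u a (hSclique x hx y hy hxy)
            · exact bag_clique hb (hsub x (Or.inl hx)) hu (by rintro rfl; exact huS hx)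
            · exact bag_clique hb (hsub y (Or.inl hy)) hu (by rintro rfl; exact huS hy)
            · exact hSadj x hx a ha
            · exact hSadj y hy a ha
            · rintro rfl
              have := (hA u).1 ha
              have := hblt u hu
              omega
            · intro h
              exact huS (hSadj' u (hblt u hu) a ha h))
        hg1 hg2 (fun a ha => hmin a (Or.inl ha) (by rintro rfl; exact hSA _ hs0 ha)) hN
      refine ⟨glue A w r1 r2 N, hglue, ?_, ?_⟩
      · intro x hx y hy
        rw [glue_lt_SS hNN (hSA x hx) (hSA y hy)]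
        exact hr1 x (hsub x (Or.inl hx)) y (hsub y (Or.inl hy))
      · intro _
        refine ⟨w, hw1, hw2, hwx, fun b hbA x hx => ?_⟩
        have hxw : r1 x ≠ r1 w := fun h =>
          hwS ((hg1.inj (hsub x (Or.inl hx)) (hsub w (Or.inr rfl)) h) ▸ hx)
        rw [glue_lt_SA hN (hSA x hx) hbA hxw]
        exact (hr1 x (hsub x (Or.inl hx)) w (hsub w (Or.inr rfl))).symm

end Pool.Agent.H255R3.STC
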